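import Pool.Agent.KS6_64.CZ.Facts

/-!
# The zones for `q r g(x^{qr}) - q g(x^q) - r g(x^r) + g(x)`, where `r / q` is near the odd number `e`
-/

set_option autoImplicit false

namespace Pool.Agent.KS6_64.DA

open Filter Topology Pool.Agent.KS6_64.CY Pool.Agent.KS6_64.CZ

/-- `g(y) + e g(y^e)` -/
def GE (g : ℝ → ℝ) (e : ℕ) (y : ℝ) : ℝ := g y + e * g (y ^ e)
/-- its derivative -/
def GE' (g' : ℝ → ℝ) (e : ℕ) (y : ℝ) : ℝ := g' y + e * (g' (y ^ e) * (e * y ^ (e - 1)))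

/-- the constants and their inequalities -/
structure DatE (g g' : ℝ → ℝ) (q r e : ℕ) where
  (c C M δ0 δ1 γ δ ε κ a b s W γG δG εG : ℝ)
  hc : 0 < c
  hb : ∀ x, 1 ≤ |x| → c ≤ g x ∧ g x ≤ C
  hM : 0 < M
  hM1 : ∀ x, |x| ≤ 1 → |g' x| ≤ M
  hM2 : ∀ x, |x| ≤ 1 → |g x| ≤ M * |x|
  d0 : 0 < δ0
  d01 : δ0 < 1
  n1 : ∀ x, |x| ≤ δ0 → |g' x - g' 0| ≤ |g' 0| / 4
  n2 : ∀ x, |x| ≤ δ0 → |g x - g' 0 * x| ≤ |g' 0| / 4 * |x|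
  tau : g' 0 ≠ 0
  d1 : 0 < δ1
  k1 : ∀ x, 1 - δ1 ≤ |x| → |x| ≤ 1 → c / 2 ≤ g x
  ka : 1 - δ1 + κ ≤ a ^ e
  ka' : 1 - δ1 ≤ a
  hγ : 0 < γ
  hδ : 0 < δ
  k2 : ∀ z, z ≠ 0 → g z = 0 → δ < |z| ∧ ∀ x, |x - z| < δ → γ ≤ |g' x|
  hε : 0 < ε
  k3 : ∀ x, x ≠ 0 → |x| ≤ 1 → |g x| ≤ ε * |x| → ∃ z, z ≠ 0 ∧ g z = 0 ∧ |x - z| < δ
  hγG : 0 < γG
  hδG : 0 < δG
  k2G : ∀ z, z ≠ 0 → GE g e z = 0 → δG < |z| ∧ ∀ x, |x - z| < δG → γG ≤ |GE' g' e x|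
  hεG : 0 < εG
  k3G : ∀ x, x ≠ 0 → |x| ≤ 1 → |GE g e x| ≤ εG * |x| →
    ∃ z, z ≠ 0 ∧ GE g e z = 0 ∧ |x - z| < δG
  cl : ∀ x, |x| ≤ 1 → δ0 ≤ |x ^ q| → |x ^ r - (x ^ q) ^ e| ≤ κ
  gA : ∀ x, |x| ≤ 1 → δ0 ≤ |x ^ q| → |A0 g q r x - q * GE g e (x ^ q)| ≤ q * (εG * δ0 / 2)
  gA' : ∀ x, |x| ≤ 1 → δ0 ≤ |x ^ q| →
    |x * A1 g' q r x - q ^ 2 * (x ^ q * GE' g' e (x ^ q))| ≤ q ^ 2 * (γG * δ0 / 2)
  a0 : 0 < a
  a1 : a < 1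
  ab : a ≤ b
  δb : δ0 ≤ b
  b1 : b < 1
  b0 : 0 < b
  hs : s = b ^ (q - 1)
  hW : (e : ℝ) ^ 2 * ((q : ℝ) ^ 4 * s) ≤ W
  oq : Odd q
  or : Odd r
  oe : Odd e
  q2 : (2 : ℝ) ≤ q
  qr : (q : ℝ) ≤ r
  r2 : (r : ℝ) ≤ 2 * e * q
  e1 : 3 * C < (q : ℝ) * c
  e2 : 24 * (e : ℝ) ^ 2 * M < (q : ℝ) * c
  e3 : 4 * (e : ℝ) ^ 2 * (M + 1) < (q : ℝ) * (ε * δ0)
  e4 : 6 * (e : ℝ) ^ 2 * (M + 1) < (q : ℝ) * (δ0 * γ)
  e3G : 4 * (M + 1) < (q : ℝ) * (εG * δ0)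
  e4G : 6 * (M + 1) < (q : ℝ) * (δ0 * γG)
  m1 : 16 * M * W < ε
  m2 : 16 * M * W < γ
  m3 : 16 * M * W < |g' 0|
  m4 : 16 * M * W < 1

variable {g g' : ℝ → ℝ} {q r e : ℕ}

namespace DatE

variable (k : DatE g g' q r e)

include k

theorem q0 : q ≠ 0 := by
  rintro rfl
  have := k.q2
  norm_num at this

theorem r0 : r ≠ 0 := by
  rintro rfl
  have h1 := k.q2
  have h2 := k.qr
  rw [Nat.cast_zero] at h2
  linarith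

theorem qr' : q ≤ r := by exact_mod_cast k.qr

theorem qqr : q ≤ q * r := Nat.le_mul_of_pos_right q (Nat.pos_of_ne_zero k.r0)

theorem s0 : 0 < k.s := by rw [k.hs]; exact pow_pos k.b0 _

theorem eF : (1 : ℝ) ≤ e ∧ (1 : ℝ) ≤ (e : ℝ) ^ 2 ∧ (e : ℝ) ≤ (e : ℝ) ^ 2 := by
  have h : (1 : ℝ) ≤ e := by
    have : 1 ≤ e := k.oe.pos
    exact_mod_cast this
  exact ⟨h, by nlinarith, by nlinarith⟩

theorem sig : (q : ℝ) * k.s ≤ k.W ∧ (r : ℝ) * k.s ≤ 2 * k.W ∧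
    (q : ℝ) * r * k.s ≤ 2 * k.W ∧ (q : ℝ) ^ 2 * k.s ≤ k.W ∧
    (r : ℝ) ^ 2 * k.s ≤ 4 * k.W ∧ ((q : ℝ) * r) ^ 2 * k.s ≤ 4 * k.W := by
  have h1 := k.s0
  have hq := k.q2
  have hr := k.r2
  obtain ⟨f1, f2, f3⟩ := k.eF
  have hW := k.hW
  have hr0 : (0 : ℝ) ≤ r := by have := k.qr; linarith
  set F : ℝ := (e : ℝ) ^ 2 with hF
  set Q : ℝ := (q : ℝ) ^ 4 with hQ
  have hQ0 : 0 ≤ Q := by positivity
  have p1 : (q : ℝ) ≤ Q := le_self_pow₀ (by linarith) (by norm_num)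
  have p2 : (q : ℝ) ^ 2 ≤ Q := pow_le_pow_right₀ (by linarith) (by norm_num)
  have p0 : Q ≤ F * Q := by nlinarith
  have p3 : (r : ℝ) ^ 2 ≤ 4 * (F * q ^ 2) := by
    have : (r : ℝ) ^ 2 ≤ (2 * e * q) ^ 2 := pow_le_pow_left₀ hr0 hr 2
    rw [hF]; nlinarith
  have p4 : (q : ℝ) * r ≤ 2 * (F * q ^ 2) := by
    have h2 : (q : ℝ) * r ≤ q * (2 * e * q) := mul_le_mul_of_nonneg_left hr (by linarith)
    have h3 : (e : ℝ) * q ^ 2 ≤ F * q ^ 2 := mul_le_mul_of_nonneg_right f3 (sq_nonneg _)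
    nlinarith
  have p6 : F * (q : ℝ) ^ 2 ≤ F * Q := mul_le_mul_of_nonneg_left p2 (by linarith)
  have p7 : (r : ℝ) ≤ 2 * (F * Q) := by
    have h2 : (e : ℝ) * q ≤ F * Q := mul_le_mul f3 p1 (by linarith) (by linarith)
    linarith
  have p5 : ((q : ℝ) * r) ^ 2 ≤ 4 * (F * Q) := by
    rw [mul_pow]
    have h2 : (q : ℝ) ^ 2 * (r : ℝ) ^ 2 ≤ q ^ 2 * (4 * (F * q ^ 2)) :=
      mul_le_mul_of_nonneg_left p3 (sq_nonneg _)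
    rw [hQ]; nlinarith
  have hs : ∀ z : ℝ, ∀ n : ℝ, 0 ≤ n → z ≤ n * (F * Q) → z * k.s ≤ n * k.W := by
    intro z n hn hz
    have h3 := mul_le_mul_of_nonneg_right hz h1.le
    have h4 : n * (F * Q) * k.s = n * (F * (Q * k.s)) := by ring
    have h5 := mul_le_mul_of_nonneg_left hW hn
    linarith
  refine ⟨?_, ?_, ?_, ?_, ?_, ?_⟩
  · have := hs q 1 (by norm_num) (by linarith); linarith
  · exact hs r 2 (by norm_num) p7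
  · exact hs (q * r) 2 (by norm_num) (by linarith)
  · have := hs ((q : ℝ) ^ 2) 1 (by norm_num) (by linarith); linarith
  · exact hs _ 4 (by norm_num) (by linarith)
  · exact hs _ 4 (by norm_num) p5

theorem W0 : 0 < k.W := by
  have h1 := k.s0
  have hq := k.q2
  obtain ⟨f1, f2, f3⟩ := k.eF
  refine lt_of_lt_of_le ?_ k.hW
  positivity

theorem pw {n : ℕ} (hn : q ≤ n) {u : ℝ} (hu : |u| ≤ k.b) : |u| ^ (n - 1) ≤ k.s := by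
  rw [k.hs]
  calc |u| ^ (n - 1) ≤ k.b ^ (n - 1) := pow_le_pow_left₀ (abs_nonneg _) hu _
    _ ≤ k.b ^ (q - 1) := pow_le_pow_of_le_one k.b0.le k.b1.le (by omega)

theorem pw2 {n : ℕ} (hn : q ≤ n) {u : ℝ} (hu : |u| ≤ k.b) : |u ^ n| ≤ k.s * |u| := by
  have hn0 : n ≠ 0 := by have := k.q0; omega
  rw [abs_pow, ← pow_sub_one_mul hn0 |u|]
  exact mul_le_mul_of_nonneg_right (k.pw hn hu) (abs_nonneg _)

omit k in
theorem pw1 {n : ℕ} {u : ℝ} (hu : |u| ≤ 1) : |u ^ n| ≤ 1 := by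
  rw [abs_pow]; exact pow_le_one₀ (abs_nonneg _) hu

theorem tg {u : ℝ} (hu : |u| ≤ 1) : |u * g' u| ≤ M k * |u| := by
  rw [abs_mul, mul_comm]
  exact mul_le_mul_of_nonneg_right (k.hM1 u hu) (abs_nonneg _)

theorem tg1 {u : ℝ} (hu : |u| ≤ 1) : |u * g' u| ≤ M k :=
  (k.tg hu).trans (by have := k.hM; nlinarith [abs_nonneg u])

theorem g1 {u : ℝ} (hu : |u| ≤ 1) : |g u| ≤ M k :=
  (k.hM2 u hu).trans (by have := k.hM; nlinarith [abs_nonneg u])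

theorem aux1 {n : ℕ} (hn : q ≤ n) {x : ℝ} (hx : |x| ≤ k.b) :
    |g' (x ^ n) * ((n : ℝ) * x ^ (n - 1))| ≤ k.M * (n * k.s) := by
  have h1 := k.hM1 (x ^ n) (pw1 (hx.trans k.b1.le))
  have h2 := k.pw hn hx
  rw [abs_mul, abs_mul, abs_pow, Nat.abs_cast]
  have := k.hM
  gcongr

theorem aux2 {n : ℕ} (hn : q ≤ n) {x : ℝ} (hx : |x| ≤ k.b) :
    |g (x ^ n)| ≤ k.M * (k.s * |x|) := by
  have h1 := k.hM2 (x ^ n) (pw1 (hx.trans k.b1.le))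
  exact h1.trans (mul_le_mul_of_nonneg_left (k.pw2 hn hx) k.hM.le)

theorem aux3 {n : ℕ} (hn : q ≤ n) {x : ℝ} (hx : |x| ≤ k.b) :
    |x ^ n * g' (x ^ n)| ≤ k.M * (k.s * |x|) := by
  have h1 := k.tg (u := x ^ n) (pw1 (hx.trans k.b1.le))
  exact h1.trans (mul_le_mul_of_nonneg_left (k.pw2 hn hx) k.hM.le)

theorem xB (x : ℝ) : x * B1 g' q r x = ((q : ℝ) * r) ^ 2 * (x ^ (q * r) * g' (x ^ (q * r))) := by
  have h0 : q * r ≠ 0 := Nat.mul_ne_zero k.q0 k.r0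
  have e : x * x ^ (q * r - 1) = x ^ (q * r) := mul_pow_sub_one h0 x
  unfold B1
  push_cast
  linear_combination ((q : ℝ) * r) ^ 2 * g' (x ^ (q * r)) * e

theorem xA (x : ℝ) : x * A1 g' q r x = (q : ℝ) ^ 2 * (x ^ q * g' (x ^ q)) +
    (r : ℝ) ^ 2 * (x ^ r * g' (x ^ r)) := by
  have e1 : x * x ^ (q - 1) = x ^ q := mul_pow_sub_one k.q0 x
  have e2 : x * x ^ (r - 1) = x ^ r := mul_pow_sub_one k.r0 x
  unfold A1
  linear_combination (q : ℝ) ^ 2 * g' (x ^ q) * e1 + (r : ℝ) ^ 2 * g' (x ^ r) * e2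

/-- zone 0 -/
theorem fact0 {x : ℝ} (hx : |x| ≤ k.a) (hg : k.γ ≤ |g' x|) :
    B1 g' q r x - A1 g' q r x + g' x ≠ 0 := by
  intro h0
  have hxb := hx.trans k.ab
  have h1 := k.aux1 le_rfl hxb
  have h2 := k.aux1 k.qr' hxb
  have h3 := k.aux1 k.qqr hxb
  have hq0 : (0 : ℝ) ≤ q := by linarith [k.q2]
  have hr0 : (0 : ℝ) ≤ r := by linarith [k.qr]
  have h4 : |B1 g' q r x| ≤ k.M * (((q : ℝ) * r) ^ 2 * k.s) := by
    unfold B1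
    rw [abs_mul, abs_mul, abs_of_nonneg hq0, abs_of_nonneg hr0]
    calc (q : ℝ) * (r * |g' (x ^ (q * r)) * (((q * r : ℕ) : ℝ) * x ^ (q * r - 1))|) ≤
        q * (r * (k.M * (((q * r : ℕ) : ℝ) * k.s))) := by gcongr
      _ = _ := by push_cast; ring
  have h5 : |A1 g' q r x| ≤ k.M * ((q : ℝ) ^ 2 * k.s) + k.M * ((r : ℝ) ^ 2 * k.s) := by
    unfold A1
    refine (abs_add_le _ _).trans ?_
    rw [abs_mul (q : ℝ), abs_mul (r : ℝ), abs_of_nonneg hq0, abs_of_nonneg hr0]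
    calc (q : ℝ) * |g' (x ^ q) * (q * x ^ (q - 1))| + r * |g' (x ^ r) * (r * x ^ (r - 1))| ≤
        q * (k.M * (q * k.s)) + r * (k.M * (r * k.s)) := by gcongr
      _ = _ := by ring
  have h6 : g' x = A1 g' q r x - B1 g' q r x := by linarith
  have h7 : |g' x| ≤ |A1 g' q r x| + |B1 g' q r x| := by rw [h6]; exact abs_sub _ _
  obtain ⟨-, -, -, s1, s2, s3⟩ := k.sig
  have hM := k.hM
  have t1 := mul_le_mul_of_nonneg_left s1 hM.le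
  have t2 := mul_le_mul_of_nonneg_left s2 hM.le
  have t3 := mul_le_mul_of_nonneg_left s3 hM.le
  have t4 := k.m2
  have t5 : 0 < k.M * k.W := mul_pos hM k.W0
  linarith

theorem loc0 {x : ℝ} (hx0 : x ≠ 0) (hx : |x| ≤ k.a) (h0 : B0 g q r x - A0 g q r x + g x = 0) :
    ∃ z, z ≠ 0 ∧ g z = 0 ∧ |x - z| < k.δ := by
  have hxb := hx.trans k.ab
  have h1 := k.aux2 le_rfl hxb
  have h2 := k.aux2 k.qr' hxb
  have h3 := k.aux2 k.qqr hxb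
  have hq0 : (0 : ℝ) ≤ q := by linarith [k.q2]
  have hr0 : (0 : ℝ) ≤ r := by linarith [k.qr]
  apply k.k3 x hx0 (hxb.trans k.b1.le)
  have h4 : |B0 g q r x| ≤ k.M * ((q : ℝ) * r * k.s) * |x| := by
    unfold B0
    rw [abs_mul, abs_mul, abs_of_nonneg hq0, abs_of_nonneg hr0]
    calc (q : ℝ) * (r * |g (x ^ (q * r))|) ≤ q * (r * (k.M * (k.s * |x|))) := by gcongr
      _ = _ := by ring
  have h5 : |A0 g q r x| ≤ k.M * ((q : ℝ) * k.s) * |x| + k.M * ((r : ℝ) * k.s) * |x| := by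
    unfold A0
    refine (abs_add_le _ _).trans ?_
    rw [abs_mul (q : ℝ), abs_mul (r : ℝ), abs_of_nonneg hq0, abs_of_nonneg hr0]
    calc (q : ℝ) * |g (x ^ q)| + r * |g (x ^ r)| ≤
        q * (k.M * (k.s * |x|)) + r * (k.M * (k.s * |x|)) := by gcongr
      _ = _ := by ring
  have h6 : g x = A0 g q r x - B0 g q r x := by linarith
  have h7 : |g x| ≤ |A0 g q r x| + |B0 g q r x| := by rw [h6]; exact abs_sub _ _
  obtain ⟨s1, s2, s3, -, -, -⟩ := k.sig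
  have hM := k.hM
  have t1 := mul_le_mul_of_nonneg_left s1 hM.le
  have t2 := mul_le_mul_of_nonneg_left s2 hM.le
  have t3 := mul_le_mul_of_nonneg_left s3 hM.le
  have t4 := k.m1
  have t5 : 0 < k.M * k.W := mul_pos hM k.W0
  have t6 : k.M * ((q : ℝ) * k.s) + k.M * ((r : ℝ) * k.s) + k.M * ((q : ℝ) * r * k.s) ≤ k.ε := by
    linarith
  have t7 := mul_le_mul_of_nonneg_right t6 (abs_nonneg x)
  linarith

end DatE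

end Pool.Agent.KS6_64.DA
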