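import Pool.Agent.KS6_64.DA.Facts

/-!
# The zones for `q r g(x^{qr}) - q g(x^q) - r g(x^r) + g(x)`, second part
-/

set_option autoImplicit false

namespace Pool.Agent.KS6_64.DA

open Filter Topology Pool.Agent.KS6_64.CY Pool.Agent.KS6_64.CZ

variable {g g' : ℝ → ℝ} {q r e : ℕ}

namespace DatE

variable (k : DatE g g' q r e)

include k

/-- the last term if `y = x ^ q` is not near `± 1` -/
theorem small {x : ℝ} (hy : |x ^ q| ≤ k.b) :
    |B0 g q r x| ≤ k.M * (2 * k.W) * |x ^ q| ∧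
    |x * B1 g' q r x| ≤ k.M * (4 * k.W) * |x ^ q| := by
  have hq0 : (0 : ℝ) ≤ q := by linarith [k.q2]
  have hr0 : (0 : ℝ) ≤ r := by linarith [k.qr]
  have hM := k.hM
  obtain ⟨-, -, s3, -, -, s6⟩ := k.sig
  constructor
  · have h1 := k.aux2 k.qr' hy
    rw [← pow_mul] at h1
    unfold B0
    rw [abs_mul, abs_mul, abs_of_nonneg hq0, abs_of_nonneg hr0]
    calc (q : ℝ) * (r * |g (x ^ (q * r))|) ≤ q * (r * (k.M * (k.s * |x ^ q|))) := by gcongr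
      _ = k.M * (q * r * k.s) * |x ^ q| := by ring
      _ ≤ _ := by gcongr
  · have h1 := k.aux3 k.qr' hy
    rw [← pow_mul] at h1
    rw [k.xB, abs_mul, abs_of_nonneg (sq_nonneg _)]
    calc ((q : ℝ) * r) ^ 2 * |x ^ (q * r) * g' (x ^ (q * r))| ≤
        ((q : ℝ) * r) ^ 2 * (k.M * (k.s * |x ^ q|)) := by gcongr
      _ = k.M * (((q : ℝ) * r) ^ 2 * k.s) * |x ^ q| := by ring
      _ ≤ _ := by gcongr

/-- the powers `x ^ r` are smaller than `x ^ q` -/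
theorem rlq {x : ℝ} (hx : |x| ≤ 1) : |x ^ r| ≤ |x ^ q| := by
  rw [abs_pow, abs_pow]
  exact pow_le_pow_of_le_one (abs_nonneg _) hx k.qr'

/-- zone 1 -/
theorem fact1 {x : ℝ} (hx : |x| ≤ 1) (hxa : k.a < |x|) (hy : |x ^ q| ≤ k.δ0)
    (hs : 0 < g' 0 * x ^ q) :
    0 < x * (A1 g' q r x - B1 g' q r x) * g x - (A0 g q r x - B0 g q r x) * (x * g' x) := by
  obtain ⟨b1, b2⟩ := k.small (hy.trans k.δb)
  have hy' : |x ^ r| ≤ k.δ0 := (k.rlq hx).trans hy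
  have hs' : 0 < g' 0 * x ^ r := (sgn_iff k.or).2 ((sgn_iff k.oq).1 hs)
  have p1 := near_pos k.n1 k.n2 hy hs
  have p2 := near_pos k.n1 k.n2 hy' hs'
  have e1 := (near_est k.n1 k.n2 hy p1).2
  have e2 := (near_est k.n1 k.n2 hy' p2).2
  have hq := k.q2
  have hqr := k.qr
  have hq0 : (0 : ℝ) < q := by linarith
  have hr0 : (0 : ℝ) < r := by linarith
  have hM := k.hM
  have hm := k.m3
  set Y := |x ^ q| with hY
  have hY0 : 0 ≤ Y := abs_nonneg _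
  set A := A0 g q r x with hA
  have hA' : A = q * g (x ^ q) + r * g (x ^ r) := rfl
  -- lower bound of `A`
  have l1 : 3 / 4 * (|g' 0| * Y) ≤ g (x ^ q) := by
    have h1 := (abs_le.1 (k.n2 _ hy)).1
    have h2 : |g' 0| * Y = g' 0 * x ^ q := by rw [hY, ← abs_mul, abs_of_pos hs]
    have h3 : |g' 0| / 4 * Y = (|g' 0| * Y) / 4 := by ring
    rw [← hY, h3] at h1
    linarith
  have l2 : 3 / 2 * (|g' 0| * Y) ≤ A := by
    have h1 : 0 ≤ |g' 0| * Y := by positivity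
    have h2 : 2 * g (x ^ q) ≤ q * g (x ^ q) := mul_le_mul_of_nonneg_right hq p1.le
    have h3 : 0 < r * g (x ^ r) := mul_pos hr0 p2
    rw [hA']; linarith
  have hA0 : 0 < A := by
    rw [hA']; positivity
  -- the small terms
  have hm' : k.M * k.W * Y ≤ |g' 0| * Y / 16 := by
    have := mul_le_mul_of_nonneg_right (show k.M * k.W ≤ |g' 0| / 16 by linarith) hY0
    linarith
  have c1 : |B0 g q r x| ≤ A / 12 := by
    have : k.M * (2 * k.W) * Y = 2 * (k.M * k.W * Y) := by ring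
    linarith
  have c2 : |x * B1 g' q r x| ≤ A / 6 := by
    have : k.M * (4 * k.W) * Y = 4 * (k.M * k.W * Y) := by ring
    linarith
  have c3 : (q : ℝ) / 2 * A ≤ x * A1 g' q r x := by
    rw [k.xA, hA']
    have u1 : (q : ℝ) ^ 2 * (1 / 2 * g (x ^ q)) ≤ (q : ℝ) ^ 2 * (x ^ q * g' (x ^ q)) :=
      mul_le_mul_of_nonneg_left e1 (by positivity)
    have u2 : (r : ℝ) ^ 2 * (1 / 2 * g (x ^ r)) ≤ (r : ℝ) ^ 2 * (x ^ r * g' (x ^ r)) :=
      mul_le_mul_of_nonneg_left e2 (by positivity)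
    have u3 : (q : ℝ) * r * (1 / 2 * g (x ^ r)) ≤ (r : ℝ) ^ 2 * (1 / 2 * g (x ^ r)) := by
      apply mul_le_mul_of_nonneg_right _ (by positivity)
      nlinarith
    have e : (q : ℝ) / 2 * (q * g (x ^ q) + r * g (x ^ r)) =
      (q : ℝ) ^ 2 * (1 / 2 * g (x ^ q)) + (q : ℝ) * r * (1 / 2 * g (x ^ r)) := by ring
    linarith
  -- the factor `g x`
  have hxg := k.k1 x (k.ka'.trans hxa.le) hx
  have hθ := k.tg1 hx
  have f1 : (q : ℝ) / 3 * A ≤ x * (A1 g' q r x - B1 g' q r x) := by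
    have h1 := (abs_le.1 c2).2
    have h2 : A / 6 ≤ (q : ℝ) / 6 * A := by nlinarith
    have h3 : x * (A1 g' q r x - B1 g' q r x) = x * A1 g' q r x - x * B1 g' q r x := by ring
    rw [h3]
    linarith
  have hc := k.hc
  have f2 : (q : ℝ) / 3 * A * (k.c / 2) ≤ x * (A1 g' q r x - B1 g' q r x) * g x := by
    have h0 : 0 ≤ (q : ℝ) / 3 * A := by positivity
    exact mul_le_mul f1 hxg (by positivity) (h0.trans f1)
  have f3 : |A - B0 g q r x| ≤ 2 * A := by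
    have := (abs_sub A (B0 g q r x))
    rw [abs_of_pos hA0] at this
    linarith
  have f4 : (A - B0 g q r x) * (x * g' x) ≤ 2 * A * k.M := by
    calc (A - B0 g q r x) * (x * g' x) ≤ |(A - B0 g q r x) * (x * g' x)| := le_abs_self _
      _ = |A - B0 g q r x| * |x * g' x| := abs_mul _ _
      _ ≤ _ := mul_le_mul f3 hθ (abs_nonneg _) (by positivity)
  have f5 : 4 * k.M * A < (q : ℝ) / 3 * A * (k.c / 2) := by
    have e2' : 24 * k.M < (q : ℝ) * k.c := by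
      have h1 := k.e2
      have h2 := mul_le_mul_of_nonneg_right k.eF.2.1 hM.le
      linarith
    have := mul_lt_mul_of_pos_right e2' hA0
    linarith
  have f6 : 0 < k.M * A := mul_pos hM hA0
  linarith

/-- zone 1: the sign -/
theorem sign1 {x : ℝ} (hx : |x| ≤ 1) (hxa : k.a < |x|) (hy : |x ^ q| ≤ k.δ0)
    (h0 : B0 g q r x - A0 g q r x + g x = 0) : 0 < g' 0 * x ^ q := by
  obtain ⟨b1, -⟩ := k.small (hy.trans k.δb)
  have hxg := k.k1 x (k.ka'.trans hxa.le) hx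
  have hc := k.hc
  have hq := k.q2
  have hqr := k.qr
  have hm := k.m3
  have hr0 : (0 : ℝ) < r := by linarith
  by_contra hcon
  have hle := not_lt.1 hcon
  have hle' : g' 0 * x ^ r ≤ 0 := by
    by_contra h1
    exact hcon ((sgn_iff k.oq).2 ((sgn_iff k.or).1 (not_le.1 h1)))
  have hy' : |x ^ r| ≤ k.δ0 := (k.rlq hx).trans hy
  have m1 := (abs_le.1 (k.n2 _ hy)).2
  have m2 := (abs_le.1 (k.n2 _ hy')).2
  have v1 : |g' 0| / 4 * |x ^ q| = -(g' 0 * x ^ q) / 4 := by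
    have : |g' 0| * |x ^ q| = -(g' 0 * x ^ q) := by rw [← abs_mul, abs_of_nonpos hle]
    linarith
  have v2 : |g' 0| / 4 * |x ^ r| = -(g' 0 * x ^ r) / 4 := by
    have : |g' 0| * |x ^ r| = -(g' 0 * x ^ r) := by rw [← abs_mul, abs_of_nonpos hle']
    linarith
  rw [v1] at m1
  rw [v2] at m2
  have w1 : g (x ^ q) ≤ -(3 / 4 * (|g' 0| * |x ^ q|)) := by
    have : |g' 0| * |x ^ q| = -(g' 0 * x ^ q) := by rw [← abs_mul, abs_of_nonpos hle]
    linarith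
  have w2 : g (x ^ r) ≤ 0 := by linarith
  have w3 : 0 ≤ |g' 0| * |x ^ q| := by positivity
  have w4 : (q : ℝ) * g (x ^ q) ≤ 2 * g (x ^ q) := by nlinarith
  have w5 : (r : ℝ) * g (x ^ r) ≤ 0 := mul_nonpos_of_nonneg_of_nonpos hr0.le w2
  have w6 : A0 g q r x = q * g (x ^ q) + r * g (x ^ r) := rfl
  have w7 : k.M * (2 * k.W) * |x ^ q| ≤ |g' 0| * |x ^ q| := by
    apply mul_le_mul_of_nonneg_right _ (abs_nonneg _)
    have : 0 < k.M * k.W := mul_pos k.hM k.W0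
    linarith
  have w8 := (abs_le.1 b1).1
  linarith

/-- zone 2 -/
theorem fact2 {x z : ℝ} (hx : |x| ≤ 1) (hy0 : k.δ0 < |x ^ q|) (hya : |x ^ q| ≤ k.a) (z0 : z ≠ 0)
    (hz : GE g e z = 0) (hyz : |x ^ q - z| < k.δG) : B1 g' q r x - A1 g' q r x + g' x ≠ 0 := by
  intro h0
  obtain ⟨-, b2⟩ := k.small (hya.trans k.ab)
  have g1 := (k.k2G z z0 hz).2 (x ^ q) hyz
  have hM := k.hM
  have hq := k.q2
  have hgA := k.gA' x hx hy0.le
  have hUl : k.δ0 * k.γG ≤ |x ^ q * GE' g' e (x ^ q)| := by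
    rw [abs_mul]
    exact mul_le_mul hy0.le g1 k.hγG.le (abs_nonneg _)
  have hlow : (q : ℝ) ^ 2 * (k.δ0 * k.γG) / 2 ≤ |x * A1 g' q r x| := by
    have h1 := abs_sub_abs_le_abs_sub ((q : ℝ) ^ 2 * (x ^ q * GE' g' e (x ^ q))) (x * A1 g' q r x)
    rw [abs_sub_comm] at h1
    have h2 : (q : ℝ) ^ 2 * (k.δ0 * k.γG) ≤ |(q : ℝ) ^ 2 * (x ^ q * GE' g' e (x ^ q))| := by
      rw [abs_mul, abs_of_nonneg (sq_nonneg (q : ℝ))]
      exact mul_le_mul_of_nonneg_left hUl (sq_nonneg _)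
    linarith
  have h1 : x * A1 g' q r x = x * B1 g' q r x + x * g' x := by
    linear_combination (-x) * h0
  have h2 : |x * A1 g' q r x| ≤ |x * B1 g' q r x| + |x * g' x| := by
    rw [h1]; exact abs_add_le _ _
  have h3 := k.tg1 hx
  have h4 : |x * B1 g' q r x| ≤ 1 := by
    have hY : |x ^ q| ≤ 1 := pw1 hx
    have hY0 := abs_nonneg (x ^ q)
    have h5 := k.m4
    have h6 : 0 < k.M * k.W := mul_pos hM k.W0
    have h7 : k.M * (4 * k.W) * |x ^ q| ≤ 1 * 1 := by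
      apply mul_le_mul (by linarith) hY hY0 (by norm_num)
    linarith
  have h5 : (q : ℝ) * (k.δ0 * k.γG) ≤ (q : ℝ) ^ 2 * (k.δ0 * k.γG) := by
    have h6 : 0 < k.δ0 * k.γG := mul_pos k.d0 k.hγG
    exact mul_le_mul_of_nonneg_right (by nlinarith) h6.le
  have h6 := k.e4G
  linarith

theorem loc2 {x : ℝ} (hx0 : x ≠ 0) (hx : |x| ≤ 1) (hy0 : k.δ0 < |x ^ q|) (hya : |x ^ q| ≤ k.a)
    (h0 : B0 g q r x - A0 g q r x + g x = 0) :
    ∃ z, z ≠ 0 ∧ GE g e z = 0 ∧ |x ^ q - z| < k.δG := by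
  apply k.k3G _ (pow_ne_zero _ hx0) (pw1 hx)
  obtain ⟨b1, -⟩ := k.small (hya.trans k.ab)
  have hM := k.hM
  have hq := k.q2
  have hq0 : (0 : ℝ) < q := by linarith
  have hε := k.hεG
  have hgA := k.gA x hx hy0.le
  have h3 := k.g1 hx
  have h4 : |B0 g q r x| ≤ 1 := by
    have hY : |x ^ q| ≤ 1 := pw1 hx
    have hY0 := abs_nonneg (x ^ q)
    have h5 := k.m4
    have h6 : 0 < k.M * k.W := mul_pos hM k.W0
    have h7 : k.M * (2 * k.W) * |x ^ q| ≤ 1 * 1 := by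
      apply mul_le_mul (by linarith) hY hY0 (by norm_num)
    linarith
  have hE : 0 < k.εG * k.δ0 := mul_pos hε k.d0
  have h5 : |GE g e (x ^ q)| ≤ k.εG * k.δ0 := by
    by_contra hcon
    have hcon' := not_le.1 hcon
    have h6 : A0 g q r x = B0 g q r x + g x := by linarith
    have h7 : |A0 g q r x| ≤ 1 + k.M := by
      rw [h6]
      exact (abs_add_le _ _).trans (by linarith)
    have h8 := abs_sub_abs_le_abs_sub ((q : ℝ) * GE g e (x ^ q)) (A0 g q r x)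
    rw [abs_sub_comm, abs_mul, abs_of_pos hq0] at h8
    have h9 : (q : ℝ) * (k.εG * k.δ0) < q * |GE g e (x ^ q)| := mul_lt_mul_of_pos_left hcon' hq0
    have h10 := k.e3G
    linarith
  exact h5.trans (mul_le_mul_of_nonneg_left hy0.le hε.le)

/-- the bound of `T` -/
theorem factT {x : ℝ} (hx : |x| ≤ 1) (hya : k.a < |x ^ q|) (hy0 : k.δ0 < |x ^ q|) :
    (q : ℝ) * k.c / 2 ≤ A0 g q r x - g x := by
  have h1 := k.k1 (x ^ q) (k.ka'.trans hya.le) (pw1 hx)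
  have hcl := k.cl x hx hy0.le
  have h2 : 1 - k.δ1 ≤ |x ^ r| := by
    have h3 := abs_sub_abs_le_abs_sub ((x ^ q) ^ e) (x ^ r)
    rw [abs_sub_comm] at h3
    have h5 : k.a ^ e ≤ |(x ^ q) ^ e| := by
      rw [abs_pow (x ^ q)]
      exact pow_le_pow_left₀ k.a0.le hya.le e
    have := k.ka
    linarith
  have h4 := k.k1 (x ^ r) h2 (pw1 hx)
  have h5 := (abs_le.1 (k.g1 hx)).2
  have hq := k.q2
  have hqr := k.qr
  have hc := k.hc
  have h6 : (q : ℝ) * (k.c / 2) ≤ q * g (x ^ q) := mul_le_mul_of_nonneg_left h1 (by linarith)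
  have h7 : (r : ℝ) * (k.c / 2) ≤ r * g (x ^ r) := mul_le_mul_of_nonneg_left h4 (by linarith)
  have h8 : (q : ℝ) * (k.c / 2) ≤ r * (k.c / 2) := mul_le_mul_of_nonneg_right hqr (by linarith)
  have h9 : A0 g q r x = q * g (x ^ q) + r * g (x ^ r) := rfl
  have hM := k.hM
  have h10 : 24 * k.M < (q : ℝ) * k.c := by
    have h1 := k.e2
    have h2 := mul_le_mul_of_nonneg_right k.eF.2.1 hM.le
    linarith
  rw [h9]
  linarith

theorem factT' {x : ℝ} (hx : |x| ≤ 1) :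
    |x * (A1 g' q r x - g' x)| ≤ 6 * (e : ℝ) ^ 2 * q ^ 2 * k.M := by
  have h1 : x * (A1 g' q r x - g' x) = (q : ℝ) ^ 2 * (x ^ q * g' (x ^ q)) +
    (r : ℝ) ^ 2 * (x ^ r * g' (x ^ r)) - x * g' x := by
    rw [mul_sub, k.xA]
  rw [h1]
  have h2 := abs_sub ((q : ℝ) ^ 2 * (x ^ q * g' (x ^ q)) + (r : ℝ) ^ 2 * (x ^ r * g' (x ^ r)))
    (x * g' x)
  have h3 := abs_add_le ((q : ℝ) ^ 2 * (x ^ q * g' (x ^ q))) ((r : ℝ) ^ 2 * (x ^ r * g' (x ^ r)))
  rw [abs_mul ((q : ℝ) ^ 2), abs_mul ((r : ℝ) ^ 2), abs_of_nonneg (sq_nonneg (q : ℝ)),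
    abs_of_nonneg (sq_nonneg (r : ℝ))] at h3
  have h4 := k.tg1 hx
  have h5 := k.tg1 (u := x ^ q) (pw1 hx)
  have h6 := k.tg1 (u := x ^ r) (pw1 hx)
  have hq := k.q2
  have hqr := k.qr
  have hr := k.r2
  have hM := k.hM
  have h7 : (q : ℝ) ^ 2 * |x ^ q * g' (x ^ q)| ≤ q ^ 2 * k.M := by gcongr
  have h8 : (r : ℝ) ^ 2 * |x ^ r * g' (x ^ r)| ≤ r ^ 2 * k.M := by gcongr
  obtain ⟨f1, f2, f3⟩ := k.eF
  have h9 : (r : ℝ) ^ 2 * k.M ≤ 4 * ((e : ℝ) ^ 2 * q ^ 2 * k.M) := by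
    have h11 : (r : ℝ) ^ 2 ≤ (2 * e * q) ^ 2 := pow_le_pow_left₀ (by linarith) hr 2
    have h12 := mul_le_mul_of_nonneg_right h11 hM.le
    linarith
  have h10 : 1 * k.M ≤ q ^ 2 * k.M := by
    apply mul_le_mul_of_nonneg_right _ hM.le
    nlinarith
  have h13 : q ^ 2 * k.M ≤ (e : ℝ) ^ 2 * q ^ 2 * k.M := by
    have h14 : 0 ≤ (q : ℝ) ^ 2 * k.M := by positivity
    have h15 := mul_le_mul_of_nonneg_right f2 h14
    linarith
  linarith

/-- zone 3 -/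
theorem fact3 {x : ℝ} (hx : |x| ≤ 1) (hya : k.a < |x ^ q|) (hy0 : k.δ0 < |x ^ q|)
    (hw : |x ^ (q * r)| ≤ k.δ0) (hs : 0 < g' 0 * x ^ (q * r)) :
    0 < x * B1 g' q r x * (A0 g q r x - g x) - B0 g q r x * (x * (A1 g' q r x - g' x)) := by
  have hT := k.factT hx hya hy0
  have hT' := k.factT' hx
  have p1 := near_pos k.n1 k.n2 hw hs
  have e1 := (near_est k.n1 k.n2 hw p1).2
  have hq := k.q2
  have hqr := k.qr
  have hc := k.hc
  have hM := k.hM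
  have hq0 : (0 : ℝ) < q := by linarith
  have hr0 : (0 : ℝ) < r := by linarith
  set G := g (x ^ (q * r)) with hG
  have hB : B0 g q r x = q * r * G := by unfold B0; rw [← hG]; ring
  have f1 : ((q : ℝ) * r) ^ 2 * (1 / 2 * G) ≤ x * B1 g' q r x := by
    rw [k.xB]
    exact mul_le_mul_of_nonneg_left e1 (by positivity)
  have f2 : ((q : ℝ) * r) ^ 2 * (1 / 2 * G) * (q * k.c / 2) ≤
      x * B1 g' q r x * (A0 g q r x - g x) := by
    have h0 : 0 ≤ ((q : ℝ) * r) ^ 2 * (1 / 2 * G) := by positivity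
    exact mul_le_mul f1 hT (by positivity) (h0.trans f1)
  have f3 : B0 g q r x * (x * (A1 g' q r x - g' x)) ≤
      q * r * G * (6 * (e : ℝ) ^ 2 * q ^ 2 * k.M) := by
    rw [hB]
    exact mul_le_mul_of_nonneg_left ((le_abs_self _).trans hT') (by positivity)
  have f4 : q * r * G * (6 * (e : ℝ) ^ 2 * q ^ 2 * k.M) <
      ((q : ℝ) * r) ^ 2 * (1 / 2 * G) * (q * k.c / 2) := by
    have h1 : 24 * (e : ℝ) ^ 2 * k.M < (r : ℝ) * k.c := by
      have h2 : (q : ℝ) * k.c ≤ r * k.c := mul_le_mul_of_nonneg_right hqr hc.le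
      have h3 := k.e2
      linarith
    have h2 : q * r * G * (6 * (e : ℝ) ^ 2 * q ^ 2 * k.M) =
        q ^ 3 * r * G / 4 * (24 * (e : ℝ) ^ 2 * k.M) := by ring
    have h3 : ((q : ℝ) * r) ^ 2 * (1 / 2 * G) * (q * k.c / 2) = q ^ 3 * r * G / 4 * (r * k.c) := by
      ring
    rw [h2, h3]
    exact mul_lt_mul_of_pos_left h1 (by positivity)
  linarith

/-- zone 3: the sign -/
theorem sign3 {x : ℝ} (hx : |x| ≤ 1) (hya : k.a < |x ^ q|) (hy0 : k.δ0 < |x ^ q|)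
    (hw : |x ^ (q * r)| ≤ k.δ0) (h0 : B0 g q r x - A0 g q r x + g x = 0) :
    0 < g' 0 * x ^ (q * r) := by
  have hT := k.factT hx hya hy0
  have hq := k.q2
  have hqr := k.qr
  have hc := k.hc
  have hq0 : (0 : ℝ) < q := by linarith
  have hr0 : (0 : ℝ) < r := by linarith
  have hB : 0 < B0 g q r x := by
    have : 0 < (q : ℝ) * k.c / 2 := by positivity
    linarith
  have hG : 0 < g (x ^ (q * r)) := by
    by_contra hcon
    have h1 : B0 g q r x = q * (r * g (x ^ (q * r))) := rfl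
    have h2 : (r : ℝ) * g (x ^ (q * r)) ≤ 0 :=
      mul_nonpos_of_nonneg_of_nonpos hr0.le (not_lt.1 hcon)
    have h3 := mul_nonpos_of_nonneg_of_nonpos hq0.le h2
    linarith
  exact (near_est k.n1 k.n2 hw hG).1

/-- zone 4 -/
theorem fact4 {x : ℝ} (hx : |x| ≤ 1) (hw : k.δ0 < |x ^ (q * r)|) (hg : k.γ ≤ |g' (x ^ (q * r))|) :
    B1 g' q r x - A1 g' q r x + g' x ≠ 0 := by
  intro h0
  have hT' := k.factT' hx
  have hq := k.q2
  have hqr := k.qr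
  have hM := k.hM
  have hγ := k.hγ
  have hd := k.d0
  have hq0 : (0 : ℝ) < q := by linarith
  have hr0 : (0 : ℝ) < r := by linarith
  have h1 : x * (A1 g' q r x - g' x) = ((q : ℝ) * r) ^ 2 * (x ^ (q * r) * g' (x ^ (q * r))) := by
    rw [← k.xB]; linear_combination (-x) * h0
  rw [h1, abs_mul, abs_of_nonneg (sq_nonneg _), abs_mul] at hT'
  have h2 : k.δ0 * k.γ ≤ |x ^ (q * r)| * |g' (x ^ (q * r))| :=
    mul_le_mul hw.le hg hγ.le (abs_nonneg _)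
  have h3 : ((q : ℝ) * r) ^ 2 * (k.δ0 * k.γ) ≤ 6 * (e : ℝ) ^ 2 * q ^ 2 * k.M :=
    (mul_le_mul_of_nonneg_left h2 (sq_nonneg _)).trans hT'
  have h4 : (q : ℝ) ^ 2 * ((r : ℝ) ^ 2 * (k.δ0 * k.γ)) ≤ q ^ 2 * (6 * (e : ℝ) ^ 2 * k.M) := by
    have e1 : ((q : ℝ) * r) ^ 2 * (k.δ0 * k.γ) = (q : ℝ) ^ 2 * ((r : ℝ) ^ 2 * (k.δ0 * k.γ)) := by
      ring
    rw [e1] at h3
    linarith
  have h5 : (r : ℝ) ^ 2 * (k.δ0 * k.γ) ≤ 6 * (e : ℝ) ^ 2 * k.M :=
    le_of_mul_le_mul_left h4 (by positivity)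
  have h6 : (q : ℝ) * (k.δ0 * k.γ) ≤ (r : ℝ) ^ 2 * (k.δ0 * k.γ) := by
    apply mul_le_mul_of_nonneg_right _ (by positivity)
    nlinarith
  have h7 := k.e4
  have h8 := k.eF.2.1
  linarith

theorem loc4 {x : ℝ} (hx0 : x ≠ 0) (hx : |x| ≤ 1) (hw : k.δ0 < |x ^ (q * r)|)
    (h0 : B0 g q r x - A0 g q r x + g x = 0) :
    ∃ z, z ≠ 0 ∧ g z = 0 ∧ |x ^ (q * r) - z| < k.δ := by
  apply k.k3 _ (pow_ne_zero _ hx0) (pw1 hx)
  have hq := k.q2
  have hqr := k.qr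
  have hr := k.r2
  have hM := k.hM
  have hε := k.hε
  have hq0 : (0 : ℝ) < q := by linarith
  have hr0 : (0 : ℝ) < r := by linarith
  have hE : 0 < k.ε * k.δ0 := mul_pos hε k.d0
  have h1 := k.g1 hx
  have h2 := k.g1 (u := x ^ q) (pw1 hx)
  have h3 := k.g1 (u := x ^ r) (pw1 hx)
  have h4 : |B0 g q r x| ≤ (q + r + 1) * k.M := by
    have e : B0 g q r x = q * g (x ^ q) + r * g (x ^ r) - g x := by
      have : A0 g q r x = q * g (x ^ q) + r * g (x ^ r) := rfl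
      linarith
    rw [e]
    have u1 := abs_sub (q * g (x ^ q) + r * g (x ^ r)) (g x)
    have u2 := abs_add_le (q * g (x ^ q)) (r * g (x ^ r))
    rw [abs_mul (q : ℝ), abs_mul (r : ℝ), abs_of_pos hq0, abs_of_pos hr0] at u2
    have u3 : (q : ℝ) * |g (x ^ q)| ≤ q * k.M := by gcongr
    have u4 : (r : ℝ) * |g (x ^ r)| ≤ r * k.M := by gcongr
    linarith
  have h5 : |g (x ^ (q * r))| ≤ k.ε * k.δ0 := by
    by_contra hcon
    have hcon' := not_le.1 hcon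
    have hBe : |B0 g q r x| = q * (r * |g (x ^ (q * r))|) := by
      unfold B0
      rw [abs_mul, abs_mul, abs_of_pos hq0, abs_of_pos hr0]
    rw [hBe] at h4
    have h6 : (q : ℝ) * (r * (k.ε * k.δ0)) < q * (r * |g (x ^ (q * r))|) := by gcongr
    obtain ⟨f1, f2, f3⟩ := k.eF
    have h7 : ((q : ℝ) + r + 1) * k.M ≤ q * (4 * (e : ℝ) ^ 2 * k.M) := by
      have h11 : (q : ℝ) * 1 ≤ q * (e : ℝ) ^ 2 := mul_le_mul_of_nonneg_left f2 hq0.le
      have h12 : (q : ℝ) * e ≤ q * (e : ℝ) ^ 2 := mul_le_mul_of_nonneg_left f3 hq0.le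
      have h13 : (q : ℝ) + r + 1 ≤ 4 * (q * (e : ℝ) ^ 2) := by linarith
      have h14 := mul_le_mul_of_nonneg_right h13 hM.le
      linarith
    have h8 : (r : ℝ) * (k.ε * k.δ0) < 4 * (e : ℝ) ^ 2 * k.M := by
      have : (q : ℝ) * (r * (k.ε * k.δ0)) < q * (4 * (e : ℝ) ^ 2 * k.M) := by linarith
      exact lt_of_mul_lt_mul_left this hq0.le
    have h9 : (q : ℝ) * (k.ε * k.δ0) ≤ r * (k.ε * k.δ0) := mul_le_mul_of_nonneg_right hqr hE.le
    have h10 := k.e3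
    linarith
  exact h5.trans (mul_le_mul_of_nonneg_left hw.le hε.le)

end DatE

end Pool.Agent.KS6_64.DA
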