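import Pool.Agent.KS6_64.DA.Facts

/-!
# Signs of `q r h(x^{qr}) - q h(x^q) - r h(x^r) + h(x)` at three kinds of points of `(0, 1)`
-/

set_option autoImplicit false

namespace Pool.Agent.KS6_64.DA

open Filter Topology Pool.Agent.KS6_64.CY Pool.Agent.KS6_64.CZ

variable {h : ℝ → ℝ} {A : ℝ}

/-- `q r h(x^{qr}) - q h(x^q) - r h(x^r) + h(x)` -/
def HH (h : ℝ → ℝ) (q r : ℕ) (x : ℝ) : ℝ := B0 h q r x - A0 h q r x + h x

theorem sgn_of {a b : ℝ} (hb : |b - a| < |a|) : 0 < a * b := by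
  rcases lt_trichotomy a 0 with ha | ha | ha
  · rw [abs_of_neg ha] at hb
    have := (abs_lt.1 hb).2
    exact mul_pos_of_neg_of_neg ha (by linarith)
  · rw [ha, abs_zero] at hb; exact absurd hb (not_lt.2 (abs_nonneg _))
  · rw [abs_of_pos ha] at hb
    have := (abs_lt.1 hb).1
    exact mul_pos ha (by linarith)

theorem ev_gt (w : ℝ) {v : ℝ} (hv : 0 < v) : ∀ᶠ q : ℕ in atTop, w < (q : ℝ) * v :=
  (tendsto_natCast_atTop_atTop.atTop_mul_const hv).eventually (eventually_gt_atTop _)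

theorem ev_small {w y η : ℝ} (hy : 0 ≤ y) (hy1 : y < 1) (hη : 0 < η) :
    ∀ᶠ q : ℕ in atTop, w * ((q : ℝ) ^ 2 * y ^ q) < η := by
  have ht := (tendsto_pow_const_mul_const_pow_of_lt_one 2 hy hy1).const_mul w
  rw [mul_zero] at ht
  exact ht.eventually (gt_mem_nhds hη)

/-- the roots -/
theorem root_facts {z : ℝ} (z0 : 0 < z) (z1 : z < 1) {n : ℕ} (hn : n ≠ 0) :
    (z ^ ((n : ℝ)⁻¹)) ^ n = z ∧ 0 < z ^ ((n : ℝ)⁻¹) ∧ z ^ ((n : ℝ)⁻¹) < 1 :=
  ⟨Real.rpow_inv_natCast_pow z0.le hn, Real.rpow_pos_of_pos z0 _,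
    Real.rpow_lt_one z0.le z1 (by positivity)⟩

/-- order 2 -/
theorem L2 (hA : ∀ x, 0 ≤ x → x ≤ 1 → |h x| ≤ A) {z : ℝ} (z0 : 0 < z)
    (z1 : z < 1) (hz : h z ≠ 0) : ∀ᶠ q : ℕ in atTop, ∀ r : ℕ, q ≤ r →
    0 < h z * HH h q r (z ^ (((q * r : ℕ) : ℝ)⁻¹)) := by
  have hp : 0 < |h z| := abs_pos.2 hz
  have hA0 : 0 ≤ A := (abs_nonneg _).trans (hA z z0.le z1.le)
  filter_upwards [ev_gt (3 * A) hp, eventually_gt_atTop 0] with q hq hq0 r hqr
  have hqr0 : q * r ≠ 0 := Nat.mul_ne_zero (by omega) (by omega)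
  obtain ⟨u1, u2, u3⟩ := root_facts z0 z1 hqr0
  set u : ℝ := z ^ (((q * r : ℕ) : ℝ)⁻¹) with hu
  have q1 : (1 : ℝ) ≤ q := by exact_mod_cast hq0
  have qr' : (q : ℝ) ≤ r := by exact_mod_cast hqr
  have rp : (0 : ℝ) < r := by linarith
  have qp : (0 : ℝ) < q := by linarith
  have pw : ∀ n : ℕ, 0 ≤ u ^ n ∧ u ^ n ≤ 1 := fun n => ⟨pow_nonneg u2.le n, pow_le_one₀ u2.le u3.le⟩
  have b1 := hA _ (pw q).1 (pw q).2
  have b2 := hA _ (pw r).1 (pw r).2
  have b3 := hA u u2.le u3.le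
  have e1 : HH h q r u = q * r * h z - (q * h (u ^ q) + r * h (u ^ r) - h u) := by
    unfold HH B0 A0; rw [u1]; ring
  have e2 : |q * h (u ^ q) + r * h (u ^ r) - h u| ≤ 3 * A * r := by
    have v1 := abs_sub (q * h (u ^ q) + r * h (u ^ r)) (h u)
    have v2 := abs_add_le (q * h (u ^ q)) (r * h (u ^ r))
    rw [abs_mul (q : ℝ), abs_mul (r : ℝ), abs_of_pos qp, abs_of_pos rp] at v2
    have v3 : (q : ℝ) * |h (u ^ q)| ≤ r * A := mul_le_mul qr' b1 (abs_nonneg _) rp.le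
    have v4 : (r : ℝ) * |h (u ^ r)| ≤ r * A := mul_le_mul_of_nonneg_left b2 rp.le
    have v5 : A ≤ r * A := by nlinarith
    linarith
  have e3 : 0 < (q * r * h z) * HH h q r u := by
    apply sgn_of
    rw [e1, sub_sub_cancel_left, abs_neg, abs_mul, abs_mul, abs_of_pos qp, abs_of_pos rp]
    have := mul_lt_mul_of_pos_right hq rp
    linarith
  have e4 : (q * r * h z) * HH h q r u = (q * r) * (h z * HH h q r u) := by ring
  rw [e4] at e3
  exact (pos_iff_pos_of_mul_pos e3).1 (by positivity)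

/-- order 0 -/
theorem L0 (hA : ∀ x, 0 ≤ x → x ≤ 1 → |h x| ≤ A * x) (e : ℕ) (he : 0 < e) {z : ℝ} (z0 : 0 < z)
    (z1 : z < 1) (hz : h z ≠ 0) : ∀ᶠ q : ℕ in atTop, ∀ r : ℕ, q ≤ r → (r : ℝ) ≤ 2 * e * q →
    0 < h z * HH h q r z := by
  have hp : 0 < |h z| := abs_pos.2 hz
  have hA0 : 0 ≤ A := by
    have := (abs_nonneg _).trans (hA 1 zero_le_one le_rfl)
    linarith
  filter_upwards [ev_small (w := 5 * e * A) z0.le z1 hp, eventually_gt_atTop 0] with q hq hq0 r hqr hr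
  have q1 : (1 : ℝ) ≤ q := by exact_mod_cast hq0
  have e1 : (1 : ℝ) ≤ e := by exact_mod_cast he
  have qr' : (q : ℝ) ≤ r := by exact_mod_cast hqr
  have rp : (0 : ℝ) < r := by linarith
  have qp : (0 : ℝ) < q := by linarith
  have pw : ∀ n : ℕ, 0 ≤ z ^ n ∧ z ^ n ≤ 1 := fun n => ⟨pow_nonneg z0.le n, pow_le_one₀ z0.le z1.le⟩
  have pm : ∀ n : ℕ, q ≤ n → |h (z ^ n)| ≤ A * z ^ q := fun n hn =>
    (hA _ (pw n).1 (pw n).2).trans (mul_le_mul_of_nonneg_left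
      (pow_le_pow_of_le_one z0.le z1.le hn) hA0)
  have b1 := pm q le_rfl
  have b2 := pm r hqr
  have b3 := pm (q * r) (Nat.le_mul_of_pos_right q (by omega))
  set Z : ℝ := A * z ^ q with hZ
  have hZ0 : 0 ≤ Z := mul_nonneg hA0 (pw q).1
  apply sgn_of
  have e2 : HH h q r z - h z = q * (r * h (z ^ (q * r))) - (q * h (z ^ q) + r * h (z ^ r)) := by
    unfold HH B0 A0; ring
  rw [e2]
  have v1 := abs_sub (q * (r * h (z ^ (q * r)))) (q * h (z ^ q) + r * h (z ^ r))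
  have v2 := abs_add_le (q * h (z ^ q)) (r * h (z ^ r))
  rw [abs_mul (q : ℝ), abs_mul (r : ℝ), abs_of_pos qp, abs_of_pos rp] at v2
  rw [abs_mul (q : ℝ), abs_mul (r : ℝ), abs_of_pos qp, abs_of_pos rp] at v1
  have w1 : (q : ℝ) * (r * |h (z ^ (q * r))|) ≤ q * ((2 * e * q) * Z) :=
    mul_le_mul_of_nonneg_left (mul_le_mul hr b3 (abs_nonneg _) (by positivity)) qp.le
  have w2 : (q : ℝ) * |h (z ^ q)| ≤ q * Z := mul_le_mul_of_nonneg_left b1 qp.le
  have w3 : (r : ℝ) * |h (z ^ r)| ≤ (2 * e * q) * Z := mul_le_mul hr b2 (abs_nonneg _) (by positivity)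
  have w4 : (q : ℝ) * Z ≤ e * q ^ 2 * Z := by
    apply mul_le_mul_of_nonneg_right _ hZ0
    nlinarith
  have w5 : (2 * e * q) * Z ≤ 2 * (e * q ^ 2 * Z) := by
    have : (e : ℝ) * q ≤ e * q ^ 2 := by
      apply mul_le_mul_of_nonneg_left _ (by linarith)
      nlinarith
    have := mul_le_mul_of_nonneg_right this hZ0
    linarith
  have w6 : q * ((2 * e * q) * Z) = 2 * (e * q ^ 2 * Z) := by ring
  have w7 : 5 * e * A * ((q : ℝ) ^ 2 * z ^ q) = 5 * (e * q ^ 2 * Z) := by rw [hZ]; ring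
  rw [w7] at hq
  linarith

/-- order 1 -/
theorem L1 (hc : Continuous h) (hA : ∀ x, 0 ≤ x → x ≤ 1 → |h x| ≤ A * x) {e : ℕ} (oe : Odd e) {y : ℝ}
    (y0 : 0 < y) (y1 : y < 1) (hy : GE h e y ≠ 0) : ∃ t : ℝ, 0 < t ∧ t ≤ 1 ∧
    ∀ t' ≤ t, ∀ᶠ q : ℕ in atTop,
    ∀ r : ℕ, e * q ≤ r → (r : ℝ) ≤ (1 + t') * (e * q) → Odd q → Odd r →
    0 < -GE h e y * HH h q r (y ^ ((q : ℝ)⁻¹)) := by
  have hp : 0 < |GE h e y| := abs_pos.2 hy
  have hA0 : 0 ≤ A := by
    have := (abs_nonneg _).trans (hA 1 zero_le_one le_rfl)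
    linarith
  have e1 : (1 : ℝ) ≤ e := by exact_mod_cast oe.pos
  have ep : (0 : ℝ) < e := by linarith
  have he0 : e ≠ 0 := oe.pos.ne'
  obtain ⟨κ', hκ', hcont⟩ := Metric.continuousAt_iff.1 (hc.continuousAt (x := y ^ e))
    (|GE h e y| / (8 * e)) (by positivity)
  have ye0 : 0 < y ^ e := pow_pos y0 e
  have ye1 : y ^ e < 1 := pow_lt_one₀ y0.le y1 he0
  obtain ⟨t1, t10, t11, ht1⟩ := exists_t ye0 ye1 (half_pos hκ')
  refine ⟨min t1 (|GE h e y| / (8 * e * (A + 1))), by positivity, (min_le_left _ _).trans t11,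
    fun t' ht' => ?_⟩
  have tt1 : t' ≤ t1 := ht'.trans (min_le_left _ _)
  have tt2 : t' * (e * (A + 1)) ≤ |GE h e y| / 8 := by
    have h1 : t' ≤ |GE h e y| / (8 * e * (A + 1)) := ht'.trans (min_le_right _ _)
    calc t' * (e * (A + 1)) ≤ |GE h e y| / (8 * e * (A + 1)) * (e * (A + 1)) :=
          mul_le_mul_of_nonneg_right h1 (by positivity)
      _ = |GE h e y| / 8 := by field_simp
  filter_upwards [ev_gt (4 * (A + 1)) hp, ev_small (w := 2 * e * A) y0.le y1 (one_pos),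
    eventually_gt_atTop 0] with q hq hq' hq0 r heqr hr oq or
  have q1 : (1 : ℝ) ≤ q := by exact_mod_cast hq0
  have qp : (0 : ℝ) < q := by linarith
  have hqr : q ≤ r := (Nat.le_mul_of_pos_left q oe.pos).trans heqr
  have qr' : (q : ℝ) ≤ r := by exact_mod_cast hqr
  have rp : (0 : ℝ) < r := by linarith
  have heqr' : (e : ℝ) * q ≤ r := by exact_mod_cast heqr
  have heq0 : 0 < (e : ℝ) * q := by positivity
  have t'0 : 0 ≤ t' := by
    by_contra hcon
    have := mul_lt_mul_of_pos_right (show 1 + t' < 1 by linarith) heq0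
    linarith
  obtain ⟨u1, u2, u3⟩ := root_facts y0 y1 (show q ≠ 0 by omega)
  set u : ℝ := y ^ ((q : ℝ)⁻¹) with hu
  have pw : ∀ n : ℕ, 0 ≤ u ^ n ∧ u ^ n ≤ 1 := fun n => ⟨pow_nonneg u2.le n, pow_le_one₀ u2.le u3.le⟩
  -- closeness
  have hcl : |u ^ r - y ^ e| ≤ κ' / 2 := by
    have h1 := close_pow (x := u) ye0 (fun s hs hst => ht1 s hs (hst.trans tt1)) (q := q * e) (r := r)
      (Nat.mul_pos hq0 oe.pos) (by rw [mul_comm]; exact heqr)
      (by push_cast; rw [mul_comm (q : ℝ)]; exact hr) (oq.mul oe) or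
      (by rw [abs_of_pos u2]; exact u3.le)
      (by rw [pow_mul, u1, abs_of_pos ye0])
    rwa [pow_mul, u1] at h1
  have hh : |h (u ^ r) - h (y ^ e)| < |GE h e y| / (8 * e) := by
    have := hcont (x := u ^ r) (by rw [Real.dist_eq]; linarith)
    rwa [Real.dist_eq] at this
  have b1 : |h (u ^ r)| ≤ A := (hA _ (pw r).1 (pw r).2).trans (by nlinarith [(pw r).1, (pw r).2])
  have b2 : |h u| ≤ A := (hA u u2.le u3.le).trans (by nlinarith)
  have b3 : |h (u ^ (q * r))| ≤ A * y ^ q := by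
    refine (hA _ (pw _).1 (pw _).2).trans (mul_le_mul_of_nonneg_left ?_ hA0)
    rw [pow_mul, u1]
    exact pow_le_pow_of_le_one y0.le y1.le hqr
  have e2 : HH h q r u - q * -GE h e y =
      q * (r * h (u ^ (q * r))) - (r - e * q) * h (u ^ r) -
        e * q * (h (u ^ r) - h (y ^ e)) + h u := by
    unfold HH B0 A0 GE; rw [u1]; ring
  have key : 0 < (q * -GE h e y) * HH h q r u := by
    apply sgn_of
    rw [e2, abs_mul, abs_neg, abs_of_pos qp]
    have v1 := abs_add_le (q * (r * h (u ^ (q * r))) - (r - e * q) * h (u ^ r) -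
        e * q * (h (u ^ r) - h (y ^ e))) (h u)
    have v2 := abs_sub (q * (r * h (u ^ (q * r))) - (r - e * q) * h (u ^ r))
        (e * q * (h (u ^ r) - h (y ^ e)))
    have v3 := abs_sub (q * (r * h (u ^ (q * r)))) ((r - e * q) * h (u ^ r))
    have hd : 0 ≤ (r : ℝ) - e * q := by linarith
    rw [abs_mul (q : ℝ), abs_mul (r : ℝ), abs_of_pos qp, abs_of_pos rp, abs_mul ((r : ℝ) - e * q),
      abs_of_nonneg hd] at v3
    rw [abs_mul ((e : ℝ) * q), abs_of_pos heq0] at v2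
    have w1 : (q : ℝ) * (r * |h (u ^ (q * r))|) ≤ 1 := by
      have hr2 : (r : ℝ) ≤ 2 * e * q := by
        have h1 : (1 + t') * (e * q) ≤ 2 * (e * q) := by
          apply mul_le_mul_of_nonneg_right _ heq0.le
          linarith
        linarith
      have h2 : (q : ℝ) * (r * |h (u ^ (q * r))|) ≤ q * ((2 * e * q) * (A * y ^ q)) :=
        mul_le_mul_of_nonneg_left (mul_le_mul hr2 b3 (abs_nonneg _) (by positivity)) qp.le
      have h3 : q * ((2 * e * q) * (A * y ^ q)) = 2 * e * A * ((q : ℝ) ^ 2 * y ^ q) := by ring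
      linarith
    have w2 : ((r : ℝ) - e * q) * |h (u ^ r)| ≤ q * (|GE h e y| / 8) := by
      have h1 : ((r : ℝ) - e * q) * |h (u ^ r)| ≤ (t' * (e * q)) * A :=
        mul_le_mul (by linarith) b1 (abs_nonneg _) (by positivity)
      have h2 := mul_le_mul_of_nonneg_left tt2 qp.le
      have h3 : 0 ≤ t' * e * q := by positivity
      have h4 : (t' * (e * q)) * A ≤ q * (t' * (e * (A + 1))) := by nlinarith
      linarith
    have w3 : (e : ℝ) * q * |h (u ^ r) - h (y ^ e)| ≤ q * (|GE h e y| / 8) := by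
      have h1 := mul_le_mul_of_nonneg_left hh.le heq0.le
      have h2 : (e : ℝ) * q * (|GE h e y| / (8 * e)) = q * (|GE h e y| / 8) := by field_simp
      linarith
    have hq3 : 0 < (q : ℝ) * |GE h e y| := mul_pos qp hp
    linarith
  have e4 : (q * -GE h e y) * HH h q r u = q * (-GE h e y * HH h q r u) := by ring
  rw [e4] at key
  exact (pos_iff_pos_of_mul_pos key).1 qp

end Pool.Agent.KS6_64.DA
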