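import Pool.Agent.KS6_64.DA.Samp

/-!
# The sign changes of `q r h(x^{qr}) - q h(x^q) - r h(x^r) + h(x)`, `h` belonging to a prime `p`
-/

set_option autoImplicit false

namespace Pool.Agent.KS6_64.DA

open Filter Topology Pool.Agent.KS6_64.CY Pool.Agent.KS6_64.CZ

theorem ev_pow {y w : ℝ} (y0 : 0 ≤ y) (y1 : y < 1) (hw : 0 < w) :
    ∀ᶠ q : ℕ in atTop, ∀ r : ℕ, q ≤ r → y ^ r < w := by
  filter_upwards [(tendsto_pow_atTop_nhds_zero_of_lt_one y0 y1).eventually (gt_mem_nhds hw)]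
    with q hq r hqr
  exact (pow_le_pow_of_le_one y0 y1.le hqr).trans_lt hq

/-- the order of the points of order 2 and order 1 -/
theorem ord2 {y z : ℝ} (y0 : 0 < y) (y1 : y < 1) (z0 : 0 < z) (z1 : z < 1) :
    ∀ᶠ q : ℕ in atTop, ∀ r : ℕ, q ≤ r → y ^ ((q : ℝ)⁻¹) < z ^ (((q * r : ℕ) : ℝ)⁻¹) := by
  filter_upwards [ev_pow y0.le y1 z0, eventually_gt_atTop 0] with q hq hq0 r hqr
  have hqr0 : q * r ≠ 0 := Nat.mul_ne_zero (by omega) (by omega)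
  obtain ⟨u1, u2, u3⟩ := root_facts z0 z1 hqr0
  obtain ⟨v1, v2, v3⟩ := root_facts y0 y1 (show q ≠ 0 by omega)
  apply lt_of_pow_lt_pow_left₀ (q * r) u2.le
  rw [u1, pow_mul, v1]
  exact hq r hqr

/-- the order of the points of order 1 and order 0 -/
theorem ord1 {y z : ℝ} (y0 : 0 < y) (y1 : y < 1) (z0 : 0 < z) (z1 : z < 1) :
    ∀ᶠ q : ℕ in atTop, z < y ^ ((q : ℝ)⁻¹) := by
  filter_upwards [ev_pow z0.le z1 y0, eventually_gt_atTop 0] with q hq hq0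
  obtain ⟨v1, v2, v3⟩ := root_facts y0 y1 (show q ≠ 0 by omega)
  apply lt_of_pow_lt_pow_left₀ q v2.le
  rw [v1]
  exact hq q le_rfl

theorem mono_root {y z : ℝ} (y0 : 0 < y) (hyz : y < z) {n : ℕ} (hn : n ≠ 0) :
    y ^ ((n : ℝ)⁻¹) < z ^ ((n : ℝ)⁻¹) :=
  Real.rpow_lt_rpow y0.le hyz (by positivity)

theorem POS3 {g : ℝ → ℝ} {x0 x1 x2 : ℝ} (h0 : x0 < 1) (o0 : x1 < x0) (o1 : x2 < x1) (h2 : 0 < x2)
    (s0 : 0 < g x0) (s1 : g x1 < 0) (s2 : 0 < g x2) : POS g 2 := by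
  refine ⟨fun i => match i with | 0 => x0 | 1 => x1 | _ => x2, ?_, ?_⟩
  · intro i hi
    interval_cases i
    · refine ⟨?_, ?_, ?_⟩ <;> norm_num <;> linarith
    · refine ⟨?_, ?_, ?_⟩ <;> norm_num <;> linarith
    · refine ⟨?_, ?_, ?_⟩ <;> norm_num <;> linarith
  · intro i hi
    interval_cases i
    · exact o0
    · exact o1

theorem POS6 {g : ℝ → ℝ} {x0 x1 x2 x3 x4 x5 : ℝ} (h0 : x0 < 1) (o0 : x1 < x0) (o1 : x2 < x1)
    (o2 : x3 < x2) (o3 : x4 < x3) (o4 : x5 < x4) (h5 : 0 < x5) (s0 : 0 < g x0) (s1 : g x1 < 0)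
    (s2 : 0 < g x2) (s3 : g x3 < 0) (s4 : 0 < g x4) (s5 : g x5 < 0) : POS g 5 := by
  refine ⟨fun i => match i with | 0 => x0 | 1 => x1 | 2 => x2 | 3 => x3 | 4 => x4 | _ => x5, ?_, ?_⟩
  · intro i hi
    interval_cases i
    · refine ⟨?_, ?_, ?_⟩ <;> norm_num <;> linarith
    · refine ⟨?_, ?_, ?_⟩ <;> norm_num <;> linarith
    · refine ⟨?_, ?_, ?_⟩ <;> norm_num <;> linarith
    · refine ⟨?_, ?_, ?_⟩ <;> norm_num <;> linarith
    · refine ⟨?_, ?_, ?_⟩ <;> norm_num <;> linarith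
    · refine ⟨?_, ?_, ?_⟩ <;> norm_num <;> linarith
  · intro i hi
    interval_cases i
    · exact o0
    · exact o1
    · exact o2
    · exact o3
    · exact o4

theorem bound_of {m : ℕ} (hm : 2 < m) : ∃ A : ℝ, (∀ x, 0 ≤ x → x ≤ 1 → |gg m x| ≤ A * x) ∧
    (∀ x, 0 ≤ x → x ≤ 1 → |gg m (-x)| ≤ A * x) := by
  obtain ⟨A, hA⟩ := gg_bound hm
  refine ⟨A, fun x h0 h1 => ?_, fun x h0 h1 => ?_⟩
  · have := hA x (by rw [abs_of_nonneg h0]; exact h1)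
    rwa [abs_of_nonneg h0] at this
  · have := hA (-x) (by rw [abs_neg, abs_of_nonneg h0]; exact h1)
    rwa [abs_neg x, abs_of_nonneg h0] at this

theorem bound_one {h : ℝ → ℝ} {A : ℝ} (hA : ∀ x, 0 ≤ x → x ≤ 1 → |h x| ≤ A * x) :
    ∀ x, 0 ≤ x → x ≤ 1 → |h x| ≤ A := by
  intro x h0 h1
  have hA0 : 0 ≤ A := by
    have := (abs_nonneg _).trans (hA 1 zero_le_one le_rfl)
    linarith
  exact (hA x h0 h1).trans (by nlinarith)

theorem posL {p e : ℕ} (hp : p.Prime) (h3 : 2 < p) (oe : Odd e) : ∃ t : ℝ, 0 < t ∧ t ≤ 1 ∧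
    ∀ t' ≤ t, ∀ᶠ q : ℕ in atTop, ∀ r : ℕ, e * q ≤ r → (r : ℝ) ≤ (1 + t') * (e * q) →
      Odd q → Odd r → POS (HH (gg p) q r) 2 := by
  obtain ⟨A, hA, -⟩ := bound_of h3
  have hA' := bound_one hA
  have hgp : ∀ x : ℝ, 0 < x → 0 < gg p x := fun x hx => by
    unfold gg
    exact div_pos (mul_pos hx (D_pos hp hx)) (P_pos h3 _)
  have h0 : (0 : ℝ) < 1 / 2 := by norm_num
  have h1 : (1 / 2 : ℝ) < 1 := by norm_num
  have hG : 0 < GE (gg p) e (1 / 2) := by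
    have ep : (0 : ℝ) < e := by exact_mod_cast oe.pos
    have a1 := hgp (1 / 2) h0
    have a2 := hgp ((1 / 2) ^ e) (by positivity)
    unfold GE
    positivity
  obtain ⟨t, t0, t1, ht⟩ := L1 (gg_cont h3) hA oe h0 h1 hG.ne'
  refine ⟨t, t0, t1, fun t' ht' => ?_⟩
  filter_upwards [ht t' ht', L2 hA' h0 h1 (hgp _ h0).ne', L0 hA e oe.pos h0 h1 (hgp _ h0).ne',
    ord2 h0 h1 h0 h1, ord1 h0 h1 h0 h1, eventually_gt_atTop 0] with q e1 e2 e0 o2 o1 hq0 r her hr oq or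
  have hqr : q ≤ r := (Nat.le_mul_of_pos_left q oe.pos).trans her
  have hr2 : (r : ℝ) ≤ 2 * e * q := by
    have h2 : (0 : ℝ) ≤ e * q := by positivity
    nlinarith
  have a1 := e1 r her hr oq or
  have a2 := e2 r hqr
  have a0 := e0 r hqr hr2
  have hqr0 : q * r ≠ 0 := Nat.mul_ne_zero (by omega) (by omega)
  refine POS3 (root_facts h0 h1 hqr0).2.2 (o2 r hqr) o1 h0 ?_ ?_ ?_
  · exact (pos_iff_pos_of_mul_pos a2).1 (hgp _ h0)
  · exact (neg_iff_neg_of_mul_pos a1).1 (by linarith)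
  · exact (pos_iff_pos_of_mul_pos a0).1 (hgp _ h0)

theorem negL {p e : ℕ} (hp : p.Prime) (h3 : 2 < p) (oe : Odd e) (he : 4 * p < e) :
    ∃ t : ℝ, 0 < t ∧ t ≤ 1 ∧
    ∀ t' ≤ t, ∀ᶠ q : ℕ in atTop, ∀ r : ℕ, e * q ≤ r → (r : ℝ) ≤ (1 + t') * (e * q) →
      Odd q → Odd r → POS (HH (fun x => gg p (-x)) q r) 5 := by
  obtain ⟨A, -, hA⟩ := bound_of h3
  have hA' := bound_one hA
  have hc : Continuous (fun x => gg p (-x)) := (gg_cont h3).comp continuous_neg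
  obtain ⟨x, hx, hxd⟩ := neg_prime hp h3
  obtain ⟨z00, z01, z02⟩ := hx 0 (by omega)
  obtain ⟨z10, z11, z12⟩ := hx 1 le_rfl
  have z3 := hxd 0 (by omega)
  rw [pow_zero, one_mul] at z02
  rw [pow_one, neg_one_mul] at z12
  rw [zero_add] at z3
  obtain ⟨y1, y2, y3, c0, c1, c2, c3, g1, g2, g3⟩ := samp hp h3 he
  have y10 : 0 < y1 := by linarith
  have y20 : 0 < y2 := by linarith
  have y21 : y2 < 1 := by linarith
  have y31 : y3 < 1 := by linarith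
  obtain ⟨t1, t10, t11, ht1⟩ := L1 hc hA oe y10 c3 g1.ne
  obtain ⟨t2, t20, t21, ht2⟩ := L1 hc hA oe y20 y21 g2.ne'
  obtain ⟨t3, t30, t31, ht3⟩ := L1 hc hA oe c0 y31 g3.ne
  refine ⟨min t1 (min t2 t3), by positivity, (min_le_left _ _).trans t11, fun t' ht' => ?_⟩
  have b1 := ht'.trans (min_le_left _ _)
  have b2 := (ht'.trans (min_le_right _ _)).trans (min_le_left _ _)
  have b3 := (ht'.trans (min_le_right _ _)).trans (min_le_right _ _)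
  have hz1 : (fun x => gg p (-x)) (x 1) ≠ 0 := by
    intro h; rw [h] at z12; linarith
  filter_upwards [ht1 t' b1, ht2 t' b2, ht3 t' b3, L2 hA' z00 z01 z02.ne',
    L2 hA' z10 z11 hz1, L0 hA e oe.pos z10 z11 hz1,
    ord2 y10 c3 z10 z11, ord1 c0 y31 z10 z11, eventually_gt_atTop 0]
    with q e1 e2 e3 f0 f1 f2 o2 o1 hq0 r her hr oq or
  have hqr : q ≤ r := (Nat.le_mul_of_pos_left q oe.pos).trans her
  have hr2 : (r : ℝ) ≤ 2 * e * q := by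
    have h2 : (0 : ℝ) ≤ e * q := by positivity
    nlinarith
  have a1 := e1 r her hr oq or
  have a2 := e2 r her hr oq or
  have a3 := e3 r her hr oq or
  have a4 := f0 r hqr
  have a5 := f1 r hqr
  have a6 := f2 r hqr hr2
  have hqr0 : q * r ≠ 0 := Nat.mul_ne_zero (by omega) (by omega)
  have hq0' : q ≠ 0 := by omega
  refine POS6 (root_facts z00 z01 hqr0).2.2 (mono_root z10 z3 hqr0) (o2 r hqr)
    (mono_root y20 c2 hq0') (mono_root c0 c1 hq0') o1 z10 ?_ ?_ ?_ ?_ ?_ ?_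
  · exact (pos_iff_pos_of_mul_pos a4).1 z02
  · exact (neg_iff_neg_of_mul_pos a5).1 (by linarith)
  · exact (pos_iff_pos_of_mul_pos a1).1 (by linarith)
  · exact (neg_iff_neg_of_mul_pos a2).1 (by linarith)
  · exact (pos_iff_pos_of_mul_pos a3).1 (by linarith)
  · exact (neg_iff_neg_of_mul_pos a6).1 (by linarith)

end Pool.Agent.KS6_64.DA
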