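import Pool.Graph.R_seed8.Helper213.PNT

/-!
# Primes `r` with `x < r ≤ (1 + t) x`
-/

set_option autoImplicit false

namespace Pool.Agent.KS6_64.DA

open Filter Topology Pool.Agent.Helper213.PNT

theorem theta_eq {x y : ℝ} (hx : 0 ≤ x) (hxy : x ≤ y)
    (h : ∀ r : ℕ, r.Prime → x < r → y < r) :
    Chebyshev.theta y = Chebyshev.theta x := by
  unfold Chebyshev.theta
  apply Finset.sum_congr _ fun _ _ => rfl
  ext n
  simp only [Finset.mem_filter, Finset.mem_Ioc]
  constructor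
  · rintro ⟨⟨h1, h2⟩, h3⟩
    refine ⟨⟨h1, ?_⟩, h3⟩
    by_contra hcon
    push Not at hcon
    have h4 : x < n := (Nat.floor_lt hx).1 hcon
    have h5 := h n h3 h4
    have h6 : (n : ℝ) ≤ y := (Nat.le_floor_iff (hx.trans hxy)).1 h2
    linarith
  · rintro ⟨⟨h1, h2⟩, h3⟩
    exact ⟨⟨h1, h2.trans (Nat.floor_mono hxy)⟩, h3⟩

theorem exists_prime_near {t : ℝ} (t0 : 0 < t) (t1 : t ≤ 1) :
    ∀ᶠ x : ℝ in atTop, ∃ r : ℕ, r.Prime ∧ x < r ∧ (r : ℝ) ≤ (1 + t) * x := by
  have h1 := theta_div_tendsto.eventually (lt_mem_nhds (show 1 - t / 4 < 1 by linarith))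
  have h2 := theta_div_tendsto.eventually (gt_mem_nhds (show (1 : ℝ) < 1 + t / 4 by linarith))
  have h3 : Tendsto (fun x : ℝ => (1 + t) * x) atTop atTop :=
    tendsto_id.const_mul_atTop (by linarith)
  filter_upwards [h2, h3.eventually h1, eventually_gt_atTop 0] with x hx hx' x0
  by_contra hcon
  push Not at hcon
  have he : Chebyshev.theta ((1 + t) * x) = Chebyshev.theta x :=
    theta_eq x0.le (by nlinarith) hcon
  rw [he, lt_div_iff₀ (by positivity)] at hx'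
  rw [div_lt_iff₀ x0] at hx
  have h5 : (1 - t / 4) * ((1 + t) * x) - (1 + t / 4) * x = (t / 4) * (2 - t) * x := by ring
  have h6 : 0 < (t / 4) * (2 - t) * x := by
    have : 0 < 2 - t := by linarith
    positivity
  linarith

theorem exists_prime_E {t : ℝ} (t0 : 0 < t) (t1 : t ≤ 1) {e : ℕ} (he : 0 < e) :
    ∀ᶠ q : ℕ in atTop, ∃ r : ℕ, r.Prime ∧ e * q < r ∧ (r : ℝ) ≤ (1 + t) * (e * q) := by
  have h1 : Tendsto (fun q : ℕ => (e : ℝ) * q) atTop atTop :=
    tendsto_natCast_atTop_atTop.const_mul_atTop (by exact_mod_cast he)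
  filter_upwards [h1.eventually (exists_prime_near t0 t1)] with q hq
  obtain ⟨r, h1, h2, h3⟩ := hq
  exact ⟨r, h1, by exact_mod_cast h2, h3⟩

end Pool.Agent.KS6_64.DA
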