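import Pool.Agent.KS6_64.DA.Low
import Pool.Agent.KS6_64.CZ.BaseP

/-!
# Sample points
-/

set_option autoImplicit false

namespace Pool.Agent.KS6_64.DA

open Filter Topology Pool.Agent.KS6_64.CY Pool.Agent.KS6_64.CZ

theorem hneg {p : ℕ} (hp : p.Prime) (h3 : 2 < p) {u : ℝ} (hu : 0 ≤ u) :
    gg p (-u) = p * u ^ p / (1 + u ^ p) - u / (1 + u) := by
  have hodd : Odd p := hp.odd_of_ne_two (by omega)
  have he : Even (p - 1) := by
    obtain ⟨k, hk⟩ := hodd
    exact ⟨k, by omega⟩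
  obtain ⟨h1, h2, -⟩ := ids hp (-u)
  rw [hodd.neg_pow] at h1
  rw [he.neg_pow] at h2
  have e : u * u ^ (p - 1) = u ^ p := mul_pow_sub_one hp.ne_zero u
  have hP := (P_pos h3 (-u)).ne'
  have hu1 : (1 : ℝ) + u ≠ 0 := by positivity
  have hu2 : (1 : ℝ) + u ^ p ≠ 0 := by positivity
  have hPe : P p (-u) = (1 + u ^ p) / (1 + u) := by
    rw [eq_div_iff hu1]; linear_combination -h1
  have hD : -u * D p (-u) = (p * u ^ p - u * P p (-u)) / (1 + u) := by
    rw [eq_div_iff hu1]; linear_combination u * h2 + (p : ℝ) * e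
  unfold gg
  rw [div_eq_iff hP, hD, hPe]
  field_simp

theorem decr {y : ℝ} (y0 : 0 ≤ y) (y1 : y ≤ 1) {k : ℕ} (h : ((k : ℝ) + 1) * y ≤ k) :
    ∀ n : ℕ, k ≤ n → (n : ℝ) * y ^ n ≤ k * y ^ k := by
  intro n hn
  induction n, hn using Nat.le_induction with
  | base => exact le_rfl
  | succ n hn ih =>
    refine le_trans ?_ ih
    have hn' : (k : ℝ) ≤ n := by exact_mod_cast hn
    have h1 : ((n : ℝ) + 1) * y ≤ n := by nlinarith
    have h2 := mul_le_mul_of_nonneg_right h1 (pow_nonneg y0 n)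
    push_cast
    calc ((n : ℝ) + 1) * y ^ (n + 1) = ((n : ℝ) + 1) * y * y ^ n := by ring
      _ ≤ _ := h2

theorem hneg_lt {p : ℕ} (hp : p.Prime) (h3 : 2 < p) {u : ℝ} (hu : 0 < u) (h6 : u ≤ 1 / 6)
    (hup : u * p ≤ 1 / 2) : gg p (-u) < 0 := by
  rw [hneg hp h3 hu.le]
  have e : u * u ^ (p - 1) = u ^ p := mul_pow_sub_one hp.ne_zero u
  have h1 : u ^ (p - 1) ≤ u := pow_le_of_le_one hu.le (by linarith) (by omega)
  have hpp : (0 : ℝ) < p := by exact_mod_cast hp.pos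
  have h2 : p * u ^ p / (1 + u ^ p) ≤ u / 2 := by
    rw [div_le_iff₀ (by positivity)]
    have h4 : p * u ^ p ≤ u / 2 := by
      rw [← e]
      calc p * (u * u ^ (p - 1)) ≤ p * (u * u) := by gcongr
        _ = u * p * u := by ring
        _ ≤ 1 / 2 * u := mul_le_mul_of_nonneg_right hup hu.le
        _ = u / 2 := by ring
    have h5 : 0 ≤ u / 2 * u ^ p := by positivity
    linarith
  have h4 : u / 2 < u / (1 + u) := div_lt_div_of_pos_left hu (by linarith) (by linarith)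
  linarith

theorem samp {p e : ℕ} (hp : p.Prime) (h3 : 2 < p) (he : 4 * p < e) : ∃ y1 y2 y3 : ℝ,
    0 < y3 ∧ y3 < y2 ∧ y2 < y1 ∧ y1 < 1 ∧ GE (fun x => gg p (-x)) e y1 < 0 ∧
    0 < GE (fun x => gg p (-x)) e y2 ∧ GE (fun x => gg p (-x)) e y3 < 0 := by
  have hp3 : (3 : ℝ) ≤ p := by exact_mod_cast h3
  have pp : (0 : ℝ) < p := by linarith
  have he' : 4 * (p : ℝ) < e := by exact_mod_cast he
  have ep : (0 : ℝ) < e := by linarith
  have p0 : p ≠ 0 := by omega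
  have e0 : e ≠ 0 := by omega
  have q0 : (0 : ℝ) < 1 / 4 := by norm_num
  have q1 : (1 / 4 : ℝ) < 1 := by norm_num
  obtain ⟨a1, a2, a3⟩ := root_facts q0 q1 e0
  obtain ⟨b1, b2, b3⟩ := root_facts q0 q1 p0
  have hlt : (1 / 4 : ℝ) ^ ((p : ℝ)⁻¹) < (1 / 4 : ℝ) ^ ((e : ℝ)⁻¹) :=
    Real.rpow_lt_rpow_of_exponent_gt q0 q1 (inv_strictAnti₀ pp (by linarith))
  set y1 : ℝ := (1 / 4 : ℝ) ^ ((e : ℝ)⁻¹) with hy1
  set y2 : ℝ := (1 / 4 : ℝ) ^ ((p : ℝ)⁻¹) with hy2
  set y3 : ℝ := 1 / (2 * p) with hy3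
  have c1 : 0 < y3 := by positivity
  have c2 : y3 * p = 1 / 2 := by rw [hy3]; field_simp
  have c3 : y3 ≤ 1 / 6 := by
    rw [hy3]; exact one_div_le_one_div_of_le (by norm_num) (by linarith)
  have hf : ∀ u : ℝ, 0 ≤ u → gg p (-u) = p * u ^ p / (1 + u ^ p) - u / (1 + u) :=
    fun u hu => hneg hp h3 hu
  refine ⟨y1, y2, y3, c1, ?_, hlt, a3, ?_, ?_, ?_⟩
  · apply lt_of_pow_lt_pow_left₀ p b2.le
    rw [b1]
    have : y3 ^ p ≤ y3 := pow_le_of_le_one c1.le (by linarith) p0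
    linarith
  · show gg p (-y1) + e * gg p (-(y1 ^ e)) < 0
    rw [a1, hf y1 a2.le, hf _ q0.le]
    have w1 : y1 ^ p ≤ 1 := pow_le_one₀ a2.le a3.le
    have w0 : 0 < y1 ^ p := pow_pos a2 p
    have u1 : p * y1 ^ p / (1 + y1 ^ p) ≤ p / 2 := by
      rw [div_le_iff₀ (by positivity)]
      nlinarith
    have u2 : 0 < y1 / (1 + y1) := by positivity
    have u3 : (p : ℝ) * (1 / 4) ^ p ≤ 3 / 64 := by
      have := decr (y := 1 / 4) (by norm_num) (by norm_num) (k := 3) (by norm_num) p h3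
      norm_num at this ⊢
      linarith
    have u4 : (p : ℝ) * (1 / 4) ^ p / (1 + (1 / 4) ^ p) ≤ p * (1 / 4) ^ p := by
      apply div_le_self (by positivity)
      have : (0 : ℝ) < (1 / 4) ^ p := by positivity
      linarith
    have u5 : (p : ℝ) * (1 / 4) ^ p / (1 + (1 / 4) ^ p) - 1 / 4 / (1 + 1 / 4) ≤ -(49 / 320) := by
      norm_num at u3 u4 ⊢
      linarith
    have u6 := mul_le_mul_of_nonneg_left u5 ep.le
    linarith
  · show 0 < gg p (-y2) + e * gg p (-(y2 ^ e))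
    rw [hf y2 b2.le, hf _ (pow_nonneg b2.le e), b1]
    have u1 : y2 / (1 + y2) ≤ 1 / 2 := by
      rw [div_le_iff₀ (by positivity)]
      linarith
    have u2 : (0 : ℝ) ≤ p * (y2 ^ e) ^ p / (1 + (y2 ^ e) ^ p) := by positivity
    have u3 : y2 ^ e / (1 + y2 ^ e) ≤ y2 ^ e := by
      apply div_le_self (by positivity)
      have : (0 : ℝ) < y2 ^ e := by positivity
      linarith
    have u4 : (e : ℝ) * y2 ^ e ≤ p / 64 := by
      have hk : (((4 * p : ℕ) : ℝ) + 1) * y2 ≤ ((4 * p : ℕ) : ℝ) := by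
        push_cast
        have hd : (0 : ℝ) < 4 * p + 1 := by linarith
        have h1 : y2 ≤ 1 + -(1 / (4 * (p : ℝ) + 1)) := by
          have h5 : 1 / (4 * (p : ℝ) + 1) ≤ 1 / 4 := one_div_le_one_div_of_le (by norm_num) (by linarith)
          apply le_of_pow_le_pow_left₀ p0 (by linarith)
          rw [b1]
          have h2 := one_add_mul_le_pow (show (-2 : ℝ) ≤ -(1 / (4 * (p : ℝ) + 1)) by linarith) p
          have h4 : (p : ℝ) * (1 / (4 * (p : ℝ) + 1)) ≤ 1 / 4 := by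
            rw [mul_one_div, div_le_iff₀ hd]; linarith
          linarith
        have h2 := mul_le_mul_of_nonneg_left h1 hd.le
        have h4 : (4 * (p : ℝ) + 1) * (1 / (4 * (p : ℝ) + 1)) = 1 := by field_simp
        linarith
      have h1 := decr b2.le b3.le hk e he.le
      have h2 : y2 ^ (4 * p) = 1 / 256 := by
        rw [mul_comm, pow_mul, b1]; norm_num
      rw [h2] at h1
      push_cast at h1
      linarith
    have u5 := mul_le_mul_of_nonneg_left u3 ep.le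
    have u6 : (0 : ℝ) ≤ e * (p * (y2 ^ e) ^ p / (1 + (y2 ^ e) ^ p)) := by positivity
    have u7 : (p : ℝ) * (1 / 4) / (1 + 1 / 4) = p / 5 := by ring
    rw [u7, mul_sub]
    linarith
  · show gg p (-y3) + e * gg p (-(y3 ^ e)) < 0
    have d1 : 0 < y3 ^ e := by positivity
    have d2 : y3 ^ e ≤ y3 := pow_le_of_le_one c1.le (by linarith) e0
    have d3 := hneg_lt hp h3 c1 c3 c2.le
    have d4 := hneg_lt hp h3 d1 (d2.trans c3) ((mul_le_mul_of_nonneg_right d2 pp.le).trans c2.le)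
    have := mul_neg_of_pos_of_neg ep d4
    linarith

end Pool.Agent.KS6_64.DA
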