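import Pool.Agent.KS6_64.DA.Facts
import Pool.Agent.KS6_64.CZ.BaseP

/-!
# The function `y S'(y) / S(y)`, `S(y) = 1 + y + ... + y ^ (L - 1)`, for odd `L`
-/

set_option autoImplicit false

namespace Pool.Agent.KS6_64.DA

open Filter Topology Polynomial Pool.Agent.KS6_64.CY Pool.Agent.KS6_64.CZ

variable {l : ℕ}

/-- `1 + X + ... + X ^ (L - 1)` -/
noncomputable def SS (l : ℕ) : ℝ[X] := ∑ i ∈ Finset.range l, X ^ i
/-- its value -/
noncomputable def PS (l : ℕ) (x : ℝ) : ℝ := (SS l).eval x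
/-- the value of the derivative -/
noncomputable def DS (l : ℕ) (x : ℝ) : ℝ := (derivative (SS l)).eval x
/-- the value of the second derivative -/
noncomputable def D2S (l : ℕ) (x : ℝ) : ℝ := (derivative (derivative (SS l))).eval x
/-- `x S'(x) / S(x)` -/
noncomputable def gs (l : ℕ) (x : ℝ) : ℝ := x * DS l x / PS l x
/-- its derivative -/
noncomputable def gs' (l : ℕ) (x : ℝ) : ℝ :=
  ((DS l x + x * D2S l x) * PS l x - x * DS l x * DS l x) / PS l x ^ 2

/-- the three identities -/
theorem idsS (l : ℕ) (x : ℝ) : PS l x * (x - 1) = x ^ l - 1 ∧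
    DS l x * (x - 1) + PS l x = l * x ^ (l - 1) ∧
    D2S l x * (x - 1) + 2 * DS l x = l * ((l - 1 : ℕ) * x ^ (l - 1 - 1)) := by
  have h : SS l * (X - 1) = X ^ l - 1 := geom_sum_mul (X : ℝ[X]) l
  have h1 := congrArg (eval x) h
  have h2 := congrArg (fun Q => eval x (derivative Q)) h
  have h3 := congrArg (fun Q => eval x (derivative (derivative Q))) h
  simp only [derivative_mul, eval_mul, eval_add, eval_sub, eval_pow, eval_X, eval_one,
    derivative_sub, derivative_X, derivative_one, derivative_X_pow, derivative_add,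
    eval_natCast, mul_one, sub_zero, derivative_natCast, zero_mul,
    zero_add, mul_zero, add_zero, map_natCast] at h1 h2 h3
  refine ⟨h1, h2, ?_⟩
  have : D2S l x * (x - 1) + DS l x + DS l x = l * ((l - 1 : ℕ) * x ^ (l - 1 - 1)) := by
    simpa [D2S, DS] using h3
  linarith

theorem PS_sum (l : ℕ) (x : ℝ) : PS l x = ∑ i ∈ Finset.range l, x ^ i := by
  simp [PS, SS, eval_finsetSum]

theorem PS_pos (ol : Odd l) (x : ℝ) : 0 < PS l x := by
  rcases le_or_gt 0 x with h | h
  · rw [PS_sum]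
    exact Finset.sum_pos' (fun i _ => by positivity) ⟨0, Finset.mem_range.2 ol.pos, by simp⟩
  · have h1 := (idsS l x).1
    have h2 : x ^ l < 0 := ol.pow_neg h
    by_contra hcon
    have := mul_nonneg_of_nonpos_of_nonpos (not_lt.1 hcon) (show x - 1 ≤ 0 by linarith)
    linarith

theorem gs_der (ol : Odd l) (x : ℝ) : HasDerivAt (gs l) (gs' l x) x := by
  have hP : HasDerivAt (PS l) (DS l x) x := (SS l).hasDerivAt x
  have hD : HasDerivAt (DS l) (D2S l x) x := (derivative (SS l)).hasDerivAt x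
  have h := ((hasDerivAt_id' x).mul hD).div hP (PS_pos ol x).ne'
  refine h.congr_deriv ?_
  simp only [gs', Pi.mul_apply]
  ring

theorem gs'_cont (ol : Odd l) : Continuous (gs' l) := by
  have h1 : Continuous (PS l) := (SS l).continuous
  have h2 : Continuous (DS l) := (derivative (SS l)).continuous
  have h3 : Continuous (D2S l) := (derivative (derivative (SS l))).continuous
  unfold gs'
  exact Continuous.div (by fun_prop) (by fun_prop) fun x => pow_ne_zero _ (PS_pos ol x).ne'

theorem fS_eq (hl : l ≠ 0) (x : ℝ) :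
    DS l x * (x - 1) ^ 2 = (l - 1) * x ^ l - l * x ^ (l - 1) + 1 := by
  obtain ⟨h1, h2, -⟩ := idsS l x
  have e : x * x ^ (l - 1) = x ^ l := mul_pow_sub_one hl x
  linear_combination (x - 1) * h2 - h1 + (l : ℝ) * e

theorem xDS_sum (l : ℕ) (x : ℝ) :
    x * DS l x = ∑ i ∈ Finset.range l, (i : ℝ) * x ^ i := by
  unfold DS SS
  rw [derivative_sum, eval_finsetSum, Finset.mul_sum]
  refine Finset.sum_congr rfl fun i _ => ?_
  rcases Nat.eq_zero_or_pos i with rfl | hi
  · simp
  · rw [derivative_X_pow, eval_mul, eval_pow, eval_X, eval_C]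
    have e : x * x ^ (i - 1) = x ^ i := mul_pow_sub_one hi.ne' x
    rw [← e]; ring

theorem DS_pos (h3 : 2 < l) {x : ℝ} (hx : 0 < x) : 0 < DS l x := by
  have h1 : 0 < x * DS l x := by
    rw [xDS_sum]
    refine Finset.sum_pos' (fun i _ => by positivity) ⟨1, Finset.mem_range.2 (by omega), by simpa⟩
  exact (pos_iff_pos_of_mul_pos h1).1 hx

theorem DS_zero (h3 : 2 < l) : DS l 0 = 1 := by
  have h := fS_eq (show l ≠ 0 by omega) 0
  rw [zero_pow (show l ≠ 0 by omega), zero_pow (show l - 1 ≠ 0 by omega)] at h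
  linarith

theorem big_S (ol : Odd l) (h3 : 2 < l) (x : ℝ) (hx : 1 ≤ |x|) :
    1 / 2 ≤ gs l x ∧ gs l x ≤ l := by
  have hP := PS_pos ol x
  have hl3 : (3 : ℝ) ≤ l := by exact_mod_cast h3
  unfold gs
  rw [le_div_iff₀ hP, div_le_iff₀ hP]
  rcases le_abs'.1 hx with h | h
  · -- `x ≤ -1`
    have hodd := ol
    obtain ⟨h1, h2, -⟩ := idsS l x
    have e : x * x ^ (l - 1) = x ^ l := mul_pow_sub_one (show l ≠ 0 by omega) x
    have hxl : x ^ l ≤ -1 := by
      have := hodd.strictMono_pow.monotone h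
      simpa [hodd.neg_one_pow] using this
    -- multiply by `x - 1 < 0`
    have key : (x * DS l x) * (x - 1) = l * x ^ l - x * PS l x := by
      linear_combination x * h2 + (l : ℝ) * e
    have hx1 : x - 1 < 0 := by linarith
    constructor
    · have : (x * DS l x) * (x - 1) ≤ 1 / 2 * PS l x * (x - 1) := by
        rw [key]
        have e1 : 1 / 2 * PS l x * (x - 1) = 1 / 2 * (x ^ l - 1) := by rw [← h1]; ring
        rw [e1]
        have e2 : -(x * PS l x) ≤ 1 - x ^ l := by
          have : (1 - x) * PS l x = 1 - x ^ l := by linear_combination -h1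
          nlinarith
        nlinarith
      nlinarith
    · have : l * PS l x * (x - 1) ≤ (x * DS l x) * (x - 1) := by
        rw [key]
        have e1 : l * PS l x * (x - 1) = l * (x ^ l - 1) := by rw [← h1]; ring
        rw [e1]
        nlinarith
      nlinarith
  · have s1 := sum_le x h l (by omega)
    rw [← PS_sum, ← xDS_sum] at s1
    constructor
    · linarith
    · rw [xDS_sum, PS_sum, Finset.mul_sum]
      refine Finset.sum_le_sum fun i hi => ?_
      have : (i : ℝ) ≤ l := by exact_mod_cast (Finset.mem_range.1 hi).le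
      exact mul_le_mul_of_nonneg_right this (by positivity)

theorem zero_S (ol : Odd l) (h3 : 2 < l) {x : ℝ} (hx : x ≠ 0) (h0 : gs l x = 0) :
    DS l x = 0 ∧ x < 0 := by
  have h1 : DS l x = 0 := by
    unfold gs at h0
    rcases div_eq_zero_iff.1 h0 with h | h
    · exact (mul_eq_zero.1 h).resolve_left hx
    · exact absurd h (PS_pos ol x).ne'
  refine ⟨h1, ?_⟩
  by_contra hcon
  have := DS_pos h3 (lt_of_le_of_ne (not_lt.1 hcon) (Ne.symm hx))
  linarith

theorem fS_mono (ol : Odd l) (h3 : 2 < l) {x y : ℝ} (hxy : x < y) (hy : y < 0) :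
    DS l x * (x - 1) ^ 2 < DS l y * (y - 1) ^ 2 := by
  have hodd := ol
  have hl3 : (3 : ℝ) ≤ l := by exact_mod_cast h3
  rw [fS_eq (show l ≠ 0 by omega), fS_eq (show l ≠ 0 by omega)]
  have h1 : x ^ l < y ^ l := hodd.strictMono_pow hxy
  have h2 : y ^ (l - 1) < x ^ (l - 1) := by
    have he : Even (l - 1) := by
      obtain ⟨k, hk⟩ := hodd
      exact ⟨k, by omega⟩
    rw [← he.pow_abs x, ← he.pow_abs y]
    apply pow_lt_pow_left₀ _ (abs_nonneg _) (by omega)
    rw [abs_of_neg hy, abs_of_neg (hxy.trans hy)]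
    linarith
  have h4 : (l - 1 : ℝ) * x ^ l < (l - 1) * y ^ l := mul_lt_mul_of_pos_left h1 (by linarith)
  have h5 : (l : ℝ) * y ^ (l - 1) < l * x ^ (l - 1) := mul_lt_mul_of_pos_left h2 (by linarith)
  linarith

theorem up_S (ol : Odd l) (h3 : 2 < l) : UP (gs l) (gs' l) 1 := by
  have huniq : ∀ x ∈ {x | x ≠ 0 ∧ gs l x = 0}, ∀ y ∈ {x | x ≠ 0 ∧ gs l x = 0}, x = y := by
    intro x hx y hy
    obtain ⟨x1, x2⟩ := zero_S ol h3 hx.1 hx.2
    obtain ⟨y1, y2⟩ := zero_S ol h3 hy.1 hy.2
    rcases lt_trichotomy x y with h | h | h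
    · have := fS_mono ol h3 h y2
      rw [x1, y1] at this; linarith
    · exact h
    · have := fS_mono ol h3 h x2
      rw [x1, y1] at this; linarith
  have hfin : {x | x ≠ 0 ∧ gs l x = 0}.Finite := Set.Subsingleton.finite huniq
  refine ⟨gs_der ol, gs'_cont ol, (by simp [gs]), ?_, ⟨1 / 2, l, by norm_num, big_S ol h3⟩, hfin,
    (Set.ncard_le_one hfin).2 huniq, ?_⟩
  · have hP := (PS_pos ol 0).ne'
    have hD := DS_zero h3
    unfold gs'
    rw [hD]
    simp [hP]
  · intro x hx h0
    obtain ⟨x1, x2⟩ := zero_S ol h3 hx h0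
    obtain ⟨-, -, h4⟩ := idsS l x
    have hP := (PS_pos ol x).ne'
    have hD2 : D2S l x ≠ 0 := by
      intro h5
      rw [x1, h5] at h4
      have h6 : (l : ℝ) ≠ 0 := by exact_mod_cast (show l ≠ 0 by omega)
      have h7 : ((l - 1 : ℕ) : ℝ) ≠ 0 := by exact_mod_cast (by omega : l - 1 ≠ 0)
      have h8 := mul_ne_zero h6 (mul_ne_zero h7 (pow_ne_zero (l - 1 - 1) hx))
      apply h8
      linarith
    unfold gs'
    rw [x1]
    simp [hP, hD2, hx]


/-- `g(y) + ℓ g(y ^ ℓ)` for `g = gg ℓ` -/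
theorem GE_prime (hl : l.Prime) (h3 : 2 < l) (y : ℝ) : GE (gg l) l y = gs (l * l) y := by
  have : Fact l.Prime := ⟨hl⟩
  have hpoly : cyclotomic l ℝ * expand ℝ l (cyclotomic l ℝ) = SS (l * l) := by
    have hne : (X - 1 : ℝ[X]) ≠ 0 := X_sub_C_ne_zero (1 : ℝ)
    apply mul_right_cancel₀ hne
    have h1 : cyclotomic l ℝ * (X - 1) = X ^ l - 1 := cyclotomic_prime_mul_X_sub_one ℝ l
    have h2 : expand ℝ l (cyclotomic l ℝ) * (X ^ l - 1) = X ^ (l * l) - 1 := by
      have := congrArg (expand ℝ l) h1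
      rw [map_mul, map_sub, map_sub, map_pow, expand_X, map_one, ← pow_mul] at this
      exact this
    have h4 : SS (l * l) * (X - 1) = X ^ (l * l) - 1 := geom_sum_mul (X : ℝ[X]) (l * l)
    rw [h4, ← h2, ← h1]
    ring
  have h1 := congrArg (eval y) hpoly
  have h2 := congrArg (fun Q => eval y (derivative Q)) hpoly
  simp only [derivative_expand, derivative_mul, eval_mul, eval_add, expand_eval, eval_pow, eval_X,
    eval_natCast] at h1 h2
  have e1 : P l y * P l (y ^ l) = PS (l * l) y := h1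
  have e2 : D l y * P l (y ^ l) + P l y * (D l (y ^ l) * (l * y ^ (l - 1))) = DS (l * l) y := h2
  have hP := (P_pos h3 y).ne'
  have hP' := (P_pos h3 (y ^ l)).ne'
  have e : y * y ^ (l - 1) = y ^ l := mul_pow_sub_one hl.ne_zero y
  unfold GE gs gg
  rw [← e1, ← e2, mul_div_assoc', div_add_div _ _ hP hP']
  congr 1
  linear_combination (-(l : ℝ) * D l (y ^ l) * P l y) * e

theorem up_GE (hl : l.Prime) (h3 : 2 < l) : UP (GE (gg l) l) (GE' (gg' l) l) 1 := by
  have ol : Odd l := hl.odd_of_ne_two (by omega)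
  have h1 := up_S (ol.mul ol) (show 2 < l * l by nlinarith)
  have e : gs (l * l) = GE (gg l) l := by
    funext y; exact (GE_prime hl h3 y).symm
  rw [e] at h1
  have e' : gs' (l * l) = GE' (gg' l) l := by
    funext y
    refine (h1.der y).unique ?_
    have d1 := gg_der h3 y
    have d2 := ((gg_der h3 (y ^ l)).comp y (hasDerivAt_pow l y)).const_mul (l : ℝ)
    exact d1.add d2
  rwa [e'] at h1

end Pool.Agent.KS6_64.DA
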