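import Pool.Agent.KS6_64.DA.Facts2

/-!
# `q r g(x^{qr}) - q g(x^q) - r g(x^r) + g(x)` has at most `2 N + N₁ + 2` zeros besides `0`
-/

set_option autoImplicit false

namespace Pool.Agent.KS6_64.DA

open Filter Topology Pool.Agent.KS6_64.CY Pool.Agent.KS6_64.CZ

variable {g g' : ℝ → ℝ} {N N₁ : ℕ} {q r e : ℕ}

theorem xA' (hq : q ≠ 0) (hr : r ≠ 0) (x : ℝ) : x * A1 g' q r x = (q : ℝ) ^ 2 * (x ^ q * g' (x ^ q)) +
    (r : ℝ) ^ 2 * (x ^ r * g' (x ^ r)) := by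
  have e1 : x * x ^ (q - 1) = x ^ q := mul_pow_sub_one hq x
  have e2 : x * x ^ (r - 1) = x ^ r := mul_pow_sub_one hr x
  unfold A1
  linear_combination (q : ℝ) ^ 2 * g' (x ^ q) * e1 + (r : ℝ) ^ 2 * g' (x ^ r) * e2

theorem theta_uc (h : UP g g' N) {η : ℝ} (hη : 0 < η) : ∃ κ : ℝ, 0 < κ ∧ ∀ u v : ℝ, |u| ≤ 1 →
    |v| ≤ 1 → |u - v| ≤ κ → |u * g' u - v * g' v| ≤ η := by
  have hc : ContinuousOn (fun u : ℝ => u * g' u) (Set.Icc (-1) 1) :=
    (continuous_id.mul h.cont).continuousOn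
  have huc := (isCompact_Icc (a := (-1 : ℝ)) (b := 1)).uniformContinuousOn_of_continuous hc
  obtain ⟨δ, hδ, h1⟩ := Metric.uniformContinuousOn_iff.1 huc η hη
  refine ⟨δ / 2, by positivity, fun u v hu hv huv => ?_⟩
  have h2 := h1 u (Set.mem_Icc.2 (abs_le.1 hu)) v (Set.mem_Icc.2 (abs_le.1 hv))
    (by rw [Real.dist_eq]; linarith)
  rw [Real.dist_eq] at h2
  exact h2.le

theorem exists_datE (h : UP g g' N) (oe : Odd e) (hG : UP (GE g e) (GE' g' e) N₁) :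
    ∃ t : ℝ, 0 < t ∧ t ≤ 1 ∧ ∀ᶠ q : ℕ in atTop, ∀ r : ℕ,
    e * q ≤ r → (r : ℝ) ≤ (1 + t) * (e * q) → Odd q → Odd r → Nonempty (DatE g g' q r e) := by
  obtain ⟨c, C, hc, hb⟩ := h.big
  obtain ⟨M, hM, hM1, hM2⟩ := h.bound
  obtain ⟨δ0, d0, d01, n1, n2⟩ := h.near0
  obtain ⟨δ1, d1, d11, k1⟩ := h.near1 hc hb
  obtain ⟨γ, δ, hγ, hδ, k2⟩ := h.nearZ
  obtain ⟨ε, hε, k3⟩ := h.near hδ
  obtain ⟨γG, δG, hγG, hδG, k2G⟩ := hG.nearZ
  obtain ⟨εG, hεG, k3G⟩ := hG.near hδG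
  have hτ : 0 < |g' 0| := abs_pos.2 h.tau
  have he1 : (1 : ℝ) ≤ e := by exact_mod_cast oe.pos
  have hep : (0 : ℝ) < e := by linarith
  have he0 : e ≠ 0 := oe.pos.ne'
  obtain ⟨κθ, hκθ, huc⟩ := theta_uc h (η := γG * δ0 / (16 * (e : ℝ) ^ 2)) (by positivity)
  obtain ⟨κ, κ0, κ1, κ2, κ3⟩ : ∃ κ : ℝ, 0 < κ ∧ κ ≤ κθ ∧ κ ≤ δ1 / 2 ∧
      2 * e * M * κ ≤ εG * δ0 / 4 := by
    refine ⟨min (min κθ (δ1 / 2)) (εG * δ0 / (8 * e * M)), by positivity,
      (min_le_left _ _).trans (min_le_left _ _), (min_le_left _ _).trans (min_le_right _ _), ?_⟩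
    calc 2 * e * M * min (min κθ (δ1 / 2)) (εG * δ0 / (8 * e * M)) ≤
          2 * e * M * (εG * δ0 / (8 * e * M)) :=
          mul_le_mul_of_nonneg_left (min_le_right _ _) (by positivity)
      _ = εG * δ0 / 4 := by field_simp; ring
  have d0e : 0 < δ0 ^ e := pow_pos d0 e
  have d01e : δ0 ^ e < 1 := pow_lt_one₀ d0.le d01 he0
  obtain ⟨t', t0', t1', ht'⟩ := exists_t d0e d01e κ0
  obtain ⟨t, t0, tt, t2, t3⟩ : ∃ t : ℝ, 0 < t ∧ t ≤ t' ∧ t * e * M ≤ εG * δ0 / 4 ∧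
      3 * t * (e : ℝ) ^ 2 * M ≤ γG * δ0 / 4 := by
    refine ⟨min t' (min (εG * δ0 / (4 * e * M)) (γG * δ0 / (12 * (e : ℝ) ^ 2 * M))), by positivity,
      min_le_left _ _, ?_, ?_⟩
    · calc min t' (min (εG * δ0 / (4 * e * M)) (γG * δ0 / (12 * (e : ℝ) ^ 2 * M))) * e * M ≤
            εG * δ0 / (4 * e * M) * e * M := by
            gcongr
            exact (min_le_right _ _).trans (min_le_left _ _)
        _ = εG * δ0 / 4 := by field_simp
    · calc 3 * min t' (min (εG * δ0 / (4 * e * M)) (γG * δ0 / (12 * (e : ℝ) ^ 2 * M))) *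
            (e : ℝ) ^ 2 * M ≤ 3 * (γG * δ0 / (12 * (e : ℝ) ^ 2 * M)) * (e : ℝ) ^ 2 * M := by
            gcongr
            exact (min_le_right _ _).trans (min_le_right _ _)
        _ = γG * δ0 / 4 := by field_simp; ring
  have t1 : t ≤ 1 := tt.trans t1'
  have ht : ∀ s, 0 ≤ s → s ≤ t → 1 - κ ≤ (δ0 ^ e) ^ s := fun s hs hst => ht' s hs (hst.trans tt)
  refine ⟨t, t0, t1, ?_⟩
  obtain ⟨a, ha0, ha1, ha2, ha3⟩ : ∃ a : ℝ, 0 < a ∧ a < 1 ∧ 1 - δ1 ≤ a ∧ 1 - δ1 / 2 ≤ a ^ e := by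
    have h1 : δ1 / (2 * e) ≤ δ1 / 2 := by
      apply div_le_div_of_nonneg_left d1.le (by norm_num) (by linarith)
    have h2 : 0 < δ1 / (2 * e) := by positivity
    refine ⟨1 - δ1 / (2 * e), by linarith, by linarith, by linarith, ?_⟩
    have h3 := one_add_mul_le_pow (show (-2 : ℝ) ≤ -(δ1 / (2 * e)) by linarith) e
    have h4 : 1 + (e : ℝ) * -(δ1 / (2 * e)) = 1 - δ1 / 2 := by field_simp; ring
    rw [h4] at h3
    simpa [sub_eq_add_neg] using h3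
  obtain ⟨b, hab, hdb, hb1⟩ : ∃ b : ℝ, a ≤ b ∧ δ0 ≤ b ∧ b < 1 :=
    ⟨max a δ0, le_max_left _ _, le_max_right _ _, max_lt ha1 d01⟩
  have hb0 : 0 < b := by linarith
  obtain ⟨η, η0, η1, η2, η3, η4⟩ : ∃ η : ℝ, 0 < η ∧ η ≤ ε ∧ η ≤ γ ∧ η ≤ |g' 0| ∧ η ≤ 1 :=
    ⟨min (min ε γ) (min |g' 0| 1), by positivity, (min_le_left _ _).trans (min_le_left _ _),
      (min_le_left _ _).trans (min_le_right _ _), (min_le_right _ _).trans (min_le_left _ _),
      (min_le_right _ _).trans (min_le_right _ _)⟩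
  have ev : ∀ w v : ℝ, 0 < v → ∀ᶠ q : ℕ in atTop, w < (q : ℝ) * v := fun w v hv =>
    (tendsto_natCast_atTop_atTop.atTop_mul_const hv).eventually (eventually_gt_atTop _)
  have E5 : ∀ᶠ q : ℕ in atTop, 16 * M * (e : ℝ) ^ 2 / b * ((q : ℝ) ^ 4 * b ^ q) < η := by
    have ht := (tendsto_pow_const_mul_const_pow_of_lt_one 4 hb0.le hb1).const_mul
      (16 * M * (e : ℝ) ^ 2 / b)
    rw [mul_zero] at ht
    exact ht.eventually (gt_mem_nhds η0)
  filter_upwards [ev (3 * C) c hc, ev (24 * (e : ℝ) ^ 2 * M) c hc,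
    ev (4 * (e : ℝ) ^ 2 * (M + 1)) (ε * δ0) (by positivity),
    ev (6 * (e : ℝ) ^ 2 * (M + 1)) (δ0 * γ) (by positivity),
    ev (4 * (M + 1)) (εG * δ0) (by positivity), ev (6 * (M + 1)) (δ0 * γG) (by positivity),
    E5, eventually_ge_atTop 2] with q e1 e2 e3 e4 e3G e4G e5 e6 r heqr hr oq or'
  have hq0 : q ≠ 0 := by omega
  have hq2 : (2 : ℝ) ≤ q := by exact_mod_cast e6
  have hqp : (0 : ℝ) < q := by linarith
  have hes : 16 * M * (e : ℝ) ^ 2 / b * ((q : ℝ) ^ 4 * b ^ q) =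
      16 * M * ((e : ℝ) ^ 2 * ((q : ℝ) ^ 4 * b ^ (q - 1))) := by
    rw [← mul_pow_sub_one hq0 b]; field_simp
  rw [hes] at e5
  have hqr : q ≤ r := (Nat.le_mul_of_pos_left q oe.pos).trans heqr
  have hr0 : r ≠ 0 := by omega
  have hrp : (0 : ℝ) < r := by exact_mod_cast (Nat.pos_of_ne_zero hr0)
  have heqr' : (e : ℝ) * q ≤ r := by exact_mod_cast heqr
  have heq0 : 0 < (e : ℝ) * q := by positivity
  have hr2 : (r : ℝ) ≤ 2 * e * q := by nlinarith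
  have hcl : ∀ x : ℝ, |x| ≤ 1 → δ0 ≤ |x ^ q| → |x ^ r - (x ^ q) ^ e| ≤ κ := by
    intro x hx hxq
    rw [← pow_mul]
    refine close_pow d0e ht (q := q * e) (Nat.mul_pos (by omega) oe.pos)
      (by rw [mul_comm]; exact heqr) ?_ (oq.mul oe) or' hx ?_
    · push_cast; rw [mul_comm (q : ℝ)]; exact hr
    · rw [pow_mul, abs_pow (x ^ q)]
      exact pow_le_pow_left₀ d0.le hxq e
  have hdiff : 0 ≤ (r : ℝ) - e * q ∧ (r : ℝ) - e * q ≤ t * e * q := by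
    constructor <;> linarith
  have hgA : ∀ x : ℝ, |x| ≤ 1 → δ0 ≤ |x ^ q| →
      |A0 g q r x - q * GE g e (x ^ q)| ≤ q * (εG * δ0 / 2) := by
    intro x hx hxq
    have hx1 : |x ^ r| ≤ 1 := DatE.pw1 hx
    have hx2 : |(x ^ q) ^ e| ≤ 1 := DatE.pw1 (DatE.pw1 hx)
    have h1 := lip h hM1 hx2 hx1
    have h2 : |g ((x ^ q) ^ e)| ≤ M := (hM2 _ hx2).trans (by nlinarith [abs_nonneg ((x ^ q) ^ e)])
    have h3 : A0 g q r x - q * GE g e (x ^ q) =
        r * (g (x ^ r) - g ((x ^ q) ^ e)) + (r - e * q) * g ((x ^ q) ^ e) := by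
      unfold A0 GE; ring
    rw [h3]
    refine (abs_add_le _ _).trans ?_
    rw [abs_mul, abs_mul, abs_of_pos hrp, abs_of_nonneg hdiff.1]
    have h4 : (r : ℝ) * |g (x ^ r) - g ((x ^ q) ^ e)| ≤ (2 * e * q) * (M * κ) := by
      apply mul_le_mul hr2 (h1.trans (mul_le_mul_of_nonneg_left (hcl x hx hxq) hM.le))
        (abs_nonneg _) (by positivity)
    have h5 : ((r : ℝ) - e * q) * |g ((x ^ q) ^ e)| ≤ (t * e * q) * M :=
      mul_le_mul hdiff.2 h2 (abs_nonneg _) (by positivity)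
    have h6 := mul_le_mul_of_nonneg_left κ3 hqp.le
    have h7 := mul_le_mul_of_nonneg_left t2 hqp.le
    linarith
  have hgA' : ∀ x : ℝ, |x| ≤ 1 → δ0 ≤ |x ^ q| →
      |x * A1 g' q r x - q ^ 2 * (x ^ q * GE' g' e (x ^ q))| ≤ q ^ 2 * (γG * δ0 / 2) := by
    intro x hx hxq
    have hx1 : |x ^ r| ≤ 1 := DatE.pw1 hx
    have hx2 : |(x ^ q) ^ e| ≤ 1 := DatE.pw1 (DatE.pw1 hx)
    have h1 := huc (x ^ r) ((x ^ q) ^ e) hx1 hx2 ((hcl x hx hxq).trans κ1)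
    have h2 : |(x ^ q) ^ e * g' ((x ^ q) ^ e)| ≤ M := by
      rw [abs_mul]
      calc |(x ^ q) ^ e| * |g' ((x ^ q) ^ e)| ≤ 1 * M :=
            mul_le_mul hx2 (hM1 _ hx2) (abs_nonneg _) zero_le_one
        _ = M := one_mul M
    have e1 : x ^ q * (x ^ q) ^ (e - 1) = (x ^ q) ^ e := mul_pow_sub_one he0 _
    have h3 : x * A1 g' q r x - q ^ 2 * (x ^ q * GE' g' e (x ^ q)) =
        r ^ 2 * (x ^ r * g' (x ^ r) - (x ^ q) ^ e * g' ((x ^ q) ^ e)) +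
        (r - e * q) * (r + e * q) * ((x ^ q) ^ e * g' ((x ^ q) ^ e)) := by
      rw [xA' hq0 hr0]
      unfold GE'
      linear_combination (-(q : ℝ) ^ 2 * e ^ 2 * g' ((x ^ q) ^ e)) * e1
    rw [h3]
    refine (abs_add_le _ _).trans ?_
    rw [abs_mul, abs_mul, abs_of_nonneg (sq_nonneg (r : ℝ)),
      abs_of_nonneg (mul_nonneg hdiff.1 (by linarith))]
    have h4 : (r : ℝ) ^ 2 * |x ^ r * g' (x ^ r) - (x ^ q) ^ e * g' ((x ^ q) ^ e)| ≤
        (2 * e * q) ^ 2 * (γG * δ0 / (16 * (e : ℝ) ^ 2)) :=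
      mul_le_mul (pow_le_pow_left₀ hrp.le hr2 2) h1 (abs_nonneg _) (by positivity)
    have h4' : (2 * (e : ℝ) * q) ^ 2 * (γG * δ0 / (16 * (e : ℝ) ^ 2)) = q ^ 2 * (γG * δ0 / 4) := by
      field_simp; ring
    have h5 : ((r : ℝ) - e * q) * (r + e * q) * |(x ^ q) ^ e * g' ((x ^ q) ^ e)| ≤
        (t * e * q) * (3 * e * q) * M := by
      apply mul_le_mul _ h2 (abs_nonneg _) (by positivity)
      exact mul_le_mul hdiff.2 (by linarith) (by linarith) (by positivity)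
    have h7 := mul_le_mul_of_nonneg_left t3 (sq_nonneg (q : ℝ))
    have h8 : (t * e * q) * (3 * e * q) * M = q ^ 2 * (3 * t * (e : ℝ) ^ 2 * M) := by ring
    rw [h4'] at h4
    rw [h8] at h5
    linarith
  exact ⟨{ c := c, C := C, M := M, δ0 := δ0, δ1 := δ1, γ := γ, δ := δ, ε := ε, κ := κ,
           a := a, b := b, s := b ^ (q - 1), W := (e : ℝ) ^ 2 * ((q : ℝ) ^ 4 * b ^ (q - 1))
           γG := γG, δG := δG, εG := εG
           hc := hc, hb := hb, hM := hM, hM1 := hM1, hM2 := hM2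
           d0 := d0, d01 := d01, n1 := n1, n2 := n2, tau := h.tau, d1 := d1, k1 := k1
           ka := by linarith
           ka' := ha2
           hγ := hγ, hδ := hδ, k2 := k2, hε := hε, k3 := k3
           hγG := hγG, hδG := hδG, k2G := k2G, hεG := hεG, k3G := k3G
           cl := hcl, gA := hgA, gA' := hgA'
           a0 := ha0, a1 := ha1, ab := hab, δb := hdb, b1 := hb1, b0 := hb0, hs := rfl
           hW := le_rfl
           oq := oq, or := or', oe := oe, q2 := hq2, qr := by exact_mod_cast hqr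
           r2 := hr2
           e1 := e1, e2 := e2, e3 := e3, e4 := e4, e3G := e3G, e4G := e4G
           m1 := e5.trans_le η1, m2 := e5.trans_le η2, m3 := e5.trans_le η3
           m4 := e5.trans_le η4 }⟩

theorem up_twoE (h : UP g g' N) (hG : UP (GE g e) (GE' g' e) N₁) (k : DatE g g' q r e) :
    UP (fun x => B0 g q r x - A0 g q r x + g x) (fun x => B1 g' q r x - A1 g' q r x + g' x)
      (2 * N + N₁ + 2) := by
  classical
  have hq := k.q2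
  have hqr := k.qr
  have hc := k.hc
  have hqp : (0 : ℝ) < q := by linarith
  have hrp : (0 : ℝ) < r := by linarith
  have q0 := k.q0
  have r0 := k.r0
  have qr0 : q * r ≠ 0 := Nat.mul_ne_zero q0 r0
  have oqr : Odd (q * r) := k.oq.mul k.or
  have dB : ∀ x, HasDerivAt (B0 g q r) (B1 g' q r x) x := fun x =>
    (((h.der (x ^ (q * r))).comp x (hasDerivAt_pow (q * r) x)).const_mul (r : ℝ)).const_mul (q : ℝ)
  have dA : ∀ x, HasDerivAt (A0 g q r) (A1 g' q r x) x := fun x =>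
    (((h.der (x ^ q)).comp x (hasDerivAt_pow q x)).const_mul (q : ℝ)).add
      (((h.der (x ^ r)).comp x (hasDerivAt_pow r x)).const_mul (r : ℝ))
  have hder : ∀ x, HasDerivAt (fun x => B0 g q r x - A0 g q r x + g x)
      (B1 g' q r x - A1 g' q r x + g' x) x := fun x => ((dB x).sub (dA x)).add (h.der x)
  have hbig : ∀ x, 1 ≤ |x| → k.c ≤ B0 g q r x - A0 g q r x + g x ∧
      B0 g q r x - A0 g q r x + g x ≤ q * (r * k.C) + k.C := by
    intro x hx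
    have h0 := k.hb x hx
    have h1 := k.hb (x ^ q) (by rw [abs_pow]; exact one_le_pow₀ hx)
    have h2 := k.hb (x ^ r) (by rw [abs_pow]; exact one_le_pow₀ hx)
    have h3 := k.hb (x ^ (q * r)) (by rw [abs_pow]; exact one_le_pow₀ hx)
    have i1 : (q : ℝ) * (r * k.c) ≤ q * (r * g (x ^ (q * r))) := by gcongr; exact h3.1
    have i2 : (q : ℝ) * (r * g (x ^ (q * r))) ≤ q * (r * k.C) := by gcongr; exact h3.2
    have i3 : (q : ℝ) * g (x ^ q) ≤ q * k.C := by gcongr; exact h1.2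
    have i4 : (r : ℝ) * g (x ^ r) ≤ r * k.C := by gcongr; exact h2.2
    have i5 : 0 < (q : ℝ) * g (x ^ q) := mul_pos hqp (by linarith [h1.1])
    have i6 : 0 < (r : ℝ) * g (x ^ r) := mul_pos hrp (by linarith [h2.1])
    have eA : A0 g q r x = q * g (x ^ q) + r * g (x ^ r) := rfl
    have eB : B0 g q r x = q * (r * g (x ^ (q * r))) := rfl
    have hCp : 0 < k.C := by linarith [h0.1, h0.2]
    have j1 : (q : ℝ) * k.C ≤ r * k.C := mul_le_mul_of_nonneg_right hqr hCp.le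
    have j2 : (r : ℝ) * (3 * k.C) < r * (q * k.c) := mul_lt_mul_of_pos_left k.e1 hrp
    have j3 : (q : ℝ) * (r * k.c) = r * (q * k.c) := by ring
    rw [eA, eB]
    have j4 : 0 < (r : ℝ) * k.C := mul_pos hrp hCp
    constructor <;> linarith [h0.1, h0.2]
  have hlt1 : ∀ x, B0 g q r x - A0 g q r x + g x = 0 → |x| < 1 := by
    intro x hx
    by_contra hcon
    have := (hbig x (not_lt.1 hcon)).1
    rw [hx] at this
    linarith
  -- the zones
  let T : ℕ × ℝ → ℝ → Prop := fun p x =>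
    (p.1 = 0 ∧ (p.2 ≠ 0 ∧ g p.2 = 0) ∧ |x| ≤ k.a ∧ |x - p.2| < k.δ) ∨
    (p = (1, 0) ∧ k.a < |x| ∧ |x ^ q| ≤ k.δ0) ∨
    (p.1 = 2 ∧ (p.2 ≠ 0 ∧ GE g e p.2 = 0) ∧ k.δ0 < |x ^ q| ∧ |x ^ q| ≤ k.a ∧
      |x ^ q - p.2| < k.δG) ∨
    (p = (3, 0) ∧ k.a < |x ^ q| ∧ k.δ0 < |x ^ q| ∧ |x ^ (q * r)| ≤ k.δ0) ∨
    (p.1 = 4 ∧ (p.2 ≠ 0 ∧ g p.2 = 0) ∧ k.δ0 < |x ^ (q * r)| ∧
      |x ^ (q * r) - p.2| < k.δ)
  have hloc : ∀ x, x ≠ 0 → B0 g q r x - A0 g q r x + g x = 0 → ∃ p, T p x := by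
    intro x hx hz
    have hx1 := (hlt1 x hz).le
    rcases le_or_gt |x| k.a with h1 | h1
    · obtain ⟨z, hz0, hz1, hz2⟩ := k.loc0 hx h1 hz
      exact ⟨(0, z), Or.inl ⟨rfl, ⟨hz0, hz1⟩, h1, hz2⟩⟩
    · rcases le_or_gt |x ^ q| k.δ0 with h2 | h2
      · exact ⟨(1, 0), Or.inr (Or.inl ⟨rfl, h1, h2⟩)⟩
      · rcases le_or_gt |x ^ q| k.a with h3 | h3
        · obtain ⟨z, hz0, hz1, hz2⟩ := k.loc2 hx hx1 h2 h3 hz
          exact ⟨(2, z), Or.inr (Or.inr (Or.inl ⟨rfl, ⟨hz0, hz1⟩, h2, h3, hz2⟩))⟩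
        · rcases le_or_gt |x ^ (q * r)| k.δ0 with h4 | h4
          · exact ⟨(3, 0), Or.inr (Or.inr (Or.inr (Or.inl ⟨rfl, h3, h2, h4⟩)))⟩
          · obtain ⟨z, hz0, hz1, hz2⟩ := k.loc4 hx hx1 h4 hz
            exact ⟨(4, z), Or.inr (Or.inr (Or.inr (Or.inr ⟨rfl, ⟨hz0, hz1⟩, h4, hz2⟩)))⟩
  -- uniqueness in a zone
  have huniq : ∀ p x x', T p x → T p x' → B0 g q r x - A0 g q r x + g x = 0 →
      B0 g q r x' - A0 g q r x' + g x' = 0 → ¬ x < x' := by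
    intro p x x' hp hp' hz hz' hlt
    have hx1 := hlt1 x hz
    have hx1' := hlt1 x' hz'
    have hab : ∀ ξ, x ≤ ξ → ξ ≤ x' → |ξ| ≤ 1 := fun ξ a b =>
      abs_le.2 ⟨by linarith [(abs_lt.1 hx1).1], by linarith [(abs_lt.1 hx1').2]⟩
    have hrolle : ∃ ξ, x < ξ ∧ ξ < x' ∧ B1 g' q r ξ - A1 g' q r ξ + g' ξ = 0 := by
      obtain ⟨ξ, hξ, hd⟩ := exists_hasDerivAt_eq_zero hlt
        (fun w _ => (hder w).continuousAt.continuousWithinAt) (hz.trans hz'.symm)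
        (fun w _ => hder w)
      exact ⟨ξ, hξ.1, hξ.2, hd⟩
    have hδ := k.hδ
    rcases hp with ⟨i0, ⟨z0, z1⟩, a1, a2⟩ | ⟨i0, a1, a2⟩ | ⟨i0, ⟨z0, z1⟩, a1, a2, a3⟩ |
      ⟨i0, a1, a2, a3⟩ | ⟨i0, ⟨z0, z1⟩, a1, a2⟩
    · rcases hp' with ⟨-, -, b1, b2⟩ | ⟨j0, -⟩ | ⟨j0, -⟩ | ⟨j0, -⟩ | ⟨j0, -⟩
      · obtain ⟨ξ, h1, h2, hd⟩ := hrolle
        refine k.fact0 (x := ξ) ?_ ((k.k2 p.2 z0 z1).2 ξ ?_) hd
        · rw [abs_le] at *; exact ⟨by linarith, by linarith⟩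
        · rw [abs_lt] at *; exact ⟨by linarith, by linarith⟩
      · rw [j0] at i0; norm_num at i0
      · omega
      · rw [j0] at i0; norm_num at i0
      · omega
    · rcases hp' with ⟨j0, -⟩ | ⟨-, b1, b2⟩ | ⟨j0, -⟩ | ⟨j0, -⟩ | ⟨j0, -⟩
      · rw [i0] at j0; norm_num at j0
      · have s1 := k.sign1 hx1.le a1 a2 hz
        have s2 := k.sign1 hx1'.le b1 b2 hz'
        have hbet : ∀ ξ, x ≤ ξ → ξ ≤ x' → 0 < g' 0 * ξ ^ q ∧ |ξ ^ q| ≤ k.δ0 ∧ k.a < |ξ| := by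
          intro ξ h1 h2
          have := between (k := 1) k.oq odd_one s1 s2 h1 h2 a2 b2 (by simpa using a1)
            (by simpa using b1)
          simpa using this
        obtain ⟨ξ, h1, h2, h3⟩ := rolle_quot (F1 := fun x => A0 g q r x - B0 g q r x) (F2 := g)
          (F1' := fun x => A1 g' q r x - B1 g' q r x) (F2' := g') hlt
          (fun ξ => (dA ξ).sub (dB ξ)) h.der
          (fun ξ h1 h2 => by
            have := k.k1 ξ (k.ka'.trans (hbet ξ h1 h2).2.2.le) (hab ξ h1 h2)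
            linarith) (by linarith) (by linarith)
        obtain ⟨w1, w2, w3⟩ := hbet ξ h1.le h2.le
        have w4 := k.fact1 (hab ξ h1.le h2.le) w3 w2 w1
        have w5 : ξ * (A1 g' q r ξ - B1 g' q r ξ) * g ξ =
            (A0 g q r ξ - B0 g q r ξ) * (ξ * g' ξ) := by
          linear_combination ξ * h3
        linarith
      · rw [i0] at j0; norm_num at j0
      · rw [i0] at j0; norm_num at j0
      · rw [i0] at j0; norm_num at j0
    · rcases hp' with ⟨j0, -⟩ | ⟨j0, -⟩ | ⟨-, -, b1, b2, b3⟩ | ⟨j0, -⟩ | ⟨j0, -⟩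
      · omega
      · rw [j0] at i0; norm_num at i0
      · obtain ⟨ξ, h1, h2, hd⟩ := hrolle
        have hδz := (k.k2G p.2 z0 z1).1
        obtain ⟨w1, w2⟩ := between' k.oq hδz z0 a3 b3 a1 b1 h1 h2
        have m1 : x ^ q < ξ ^ q := k.oq.strictMono_pow h1
        have m2 : ξ ^ q < x' ^ q := k.oq.strictMono_pow h2
        refine k.fact2 (hab ξ h1.le h2.le) w2 ?_ z0 z1 w1 hd
        rw [abs_le] at *; exact ⟨by linarith, by linarith⟩
      · rw [j0] at i0; norm_num at i0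
      · omega
    · rcases hp' with ⟨j0, -⟩ | ⟨j0, -⟩ | ⟨j0, -⟩ | ⟨-, b1, b2, b3⟩ | ⟨j0, -⟩
      · rw [i0] at j0; norm_num at j0
      · rw [i0] at j0; norm_num at j0
      · rw [i0] at j0; norm_num at j0
      · have s1 := k.sign3 hx1.le a1 a2 a3 hz
        have s2 := k.sign3 hx1'.le b1 b2 b3 hz'
        have hbet : ∀ ξ, x ≤ ξ → ξ ≤ x' → 0 < g' 0 * ξ ^ (q * r) ∧ |ξ ^ (q * r)| ≤ k.δ0 ∧
            k.a < |ξ ^ q| ∧ k.δ0 < |ξ ^ q| := by
          intro ξ h1 h2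
          obtain ⟨u1, u2, u3⟩ := between oqr k.oq s1 s2 h1 h2 a3 b3 a1 b1
          obtain ⟨-, -, u4⟩ := between oqr k.oq s1 s2 h1 h2 a3 b3 a2 b2
          exact ⟨u1, u2, u3, u4⟩
        have hTpos : ∀ ξ, x ≤ ξ → ξ ≤ x' → 0 < A0 g q r ξ - g ξ := by
          intro ξ h1 h2
          obtain ⟨-, -, w3, w4⟩ := hbet ξ h1 h2
          have := k.factT (hab ξ h1 h2) w3 w4
          have h5 : 0 < (q : ℝ) * k.c / 2 := by positivity
          linarith
        obtain ⟨ξ, h1, h2, h3⟩ := rolle_quot (F1 := B0 g q r) (F2 := fun x => A0 g q r x - g x)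
          (F1' := B1 g' q r) (F2' := fun x => A1 g' q r x - g' x) hlt
          dB (fun ξ => (dA ξ).sub (h.der ξ)) hTpos (by linarith) (by linarith)
        obtain ⟨w1, w2, w3, w4⟩ := hbet ξ h1.le h2.le
        have w5 := k.fact3 (hab ξ h1.le h2.le) w3 w4 w2 w1
        have w6 : ξ * B1 g' q r ξ * (A0 g q r ξ - g ξ) =
            B0 g q r ξ * (ξ * (A1 g' q r ξ - g' ξ)) := by
          linear_combination ξ * h3
        linarith
      · rw [i0] at j0; norm_num at j0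
    · rcases hp' with ⟨j0, -⟩ | ⟨j0, -⟩ | ⟨j0, -⟩ | ⟨j0, -⟩ | ⟨-, -, b1, b2⟩
      · omega
      · rw [j0] at i0; norm_num at i0
      · omega
      · rw [j0] at i0; norm_num at i0
      · obtain ⟨ξ, h1, h2, hd⟩ := hrolle
        have hδz := (k.k2 p.2 z0 z1).1
        obtain ⟨w1, w2⟩ := between' oqr hδz z0 a2 b2 a1 b1 h1 h2
        exact k.fact4 (hab ξ h1.le h2.le) w2 ((k.k2 p.2 z0 z1).2 _ w1) hd
  -- the count
  choose! f hf using hloc
  set S : Set ℝ := {x | x ≠ 0 ∧ B0 g q r x - A0 g q r x + g x = 0} with hS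
  set I : Finset (ℕ × ℝ) := ((({0, 4} : Finset ℕ) ×ˢ h.fin.toFinset) ∪
    (({2} : Finset ℕ) ×ˢ hG.fin.toFinset)) ∪ {(1, 0), (3, 0)} with hI
  have hmaps : Set.MapsTo f S I := by
    intro x hx
    rw [hI, Finset.mem_coe, Finset.mem_union, Finset.mem_union, Finset.mem_product,
      Finset.mem_product]
    rcases hf x hx.1 hx.2 with ⟨i0, hz, -⟩ | ⟨i0, -⟩ | ⟨i0, hz, -⟩ | ⟨i0, -⟩ | ⟨i0, hz, -⟩
    · left; left
      exact ⟨by rw [i0]; simp, by simpa using hz⟩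
    · right
      rw [i0]; simp
    · left; right
      exact ⟨by rw [i0]; simp, by simpa using hz⟩
    · right
      rw [i0]; simp
    · left; left
      exact ⟨by rw [i0]; simp, by simpa using hz⟩
  have hinj : Set.InjOn f S := by
    intro x hx x' hx' he
    have t1 := hf x hx.1 hx.2
    have t2 := hf x' hx'.1 hx'.2
    rw [← he] at t2
    rcases lt_trichotomy x x' with hl | hl | hl
    · exact absurd hl (huniq _ x x' t1 t2 hx.2 hx'.2)
    · exact hl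
    · exact absurd hl (huniq _ x' x t2 t1 hx'.2 hx.2)
  have hIc : I.card ≤ 2 * N + N₁ + 2 := by
    have h0 := Finset.card_union_le ((({0, 4} : Finset ℕ) ×ˢ h.fin.toFinset) ∪
      (({2} : Finset ℕ) ×ˢ hG.fin.toFinset)) ({(1, 0), (3, 0)} : Finset (ℕ × ℝ))
    have h0' := Finset.card_union_le (({0, 4} : Finset ℕ) ×ˢ h.fin.toFinset)
      (({2} : Finset ℕ) ×ˢ hG.fin.toFinset)
    rw [Finset.card_product, Finset.card_product] at h0'
    have h1 : ({0, 4} : Finset ℕ).card = 2 := by decide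
    have h1' : ({2} : Finset ℕ).card = 1 := by decide
    have h2 : h.fin.toFinset.card ≤ N := by
      rw [← Set.ncard_eq_toFinset_card _ h.fin]; exact h.card
    have h2' : hG.fin.toFinset.card ≤ N₁ := by
      rw [← Set.ncard_eq_toFinset_card _ hG.fin]; exact hG.card
    have h3 : ({(1, 0), (3, 0)} : Finset (ℕ × ℝ)).card ≤ 2 := Finset.card_le_two
    rw [h1, h1'] at h0'
    rw [hI]
    omega
  have hSf : S.Finite := Set.Finite.of_injOn hmaps hinj I.finite_toSet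
  refine ⟨hder, ?_, ?_, ?_, ⟨k.c, q * (r * k.C) + k.C, hc, hbig⟩, hSf, ?_, ?_⟩
  · have := h.cont
    unfold B1 A1
    fun_prop
  · show B0 g q r 0 - A0 g q r 0 + g 0 = 0
    unfold B0 A0
    rw [zero_pow q0, zero_pow r0, zero_pow qr0, h.zero]; ring
  · show B1 g' q r 0 - A1 g' q r 0 + g' 0 ≠ 0
    have hq1 : 2 ≤ q := by exact_mod_cast hq
    have hr1 : 2 ≤ r := hq1.trans k.qr'
    have hqr1 : 2 ≤ q * r := hq1.trans k.qqr
    unfold B1 A1
    rw [zero_pow (show q - 1 ≠ 0 by omega), zero_pow (show r - 1 ≠ 0 by omega),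
      zero_pow (show q * r - 1 ≠ 0 by omega)]
    simpa using h.tau
  · refine le_trans ?_ hIc
    rw [← Set.ncard_coe_finset I]
    exact Set.ncard_le_ncard_of_injOn f hmaps hinj I.finite_toSet
  · intro x hx hz
    have hx1 := (hlt1 x hz).le
    have hδ := k.hδ
    rcases hf x hx hz with ⟨-, ⟨z0, z1⟩, a1, a2⟩ | ⟨-, a1, a2⟩ | ⟨-, ⟨z0, z1⟩, a1, a2, a3⟩ |
      ⟨-, a1, a2, a3⟩ | ⟨-, ⟨z0, z1⟩, a1, a2⟩
    · exact k.fact0 a1 ((k.k2 _ z0 z1).2 x a2)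
    · intro h0
      have s1 := k.sign1 hx1 a1 a2 hz
      have w := k.fact1 hx1 a1 a2 s1
      have e1 : A1 g' q r x - B1 g' q r x = g' x := by linarith
      have e2 : A0 g q r x - B0 g q r x = g x := by linarith
      rw [e1, e2] at w
      linarith
    · exact k.fact2 hx1 a1 a2 z0 z1 a3
    · intro h0
      have s1 := k.sign3 hx1 a1 a2 a3 hz
      have w := k.fact3 hx1 a1 a2 a3 s1
      have e1 : B1 g' q r x = A1 g' q r x - g' x := by linarith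
      have e2 : B0 g q r x = A0 g q r x - g x := by linarith
      rw [e1, e2] at w
      linarith
    · exact k.fact4 hx1 a1 ((k.k2 _ z0 z1).2 _ a2)

end Pool.Agent.KS6_64.DA
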