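import Pool.Agent.KS6_64.DA.LowP
import Pool.Agent.KS6_64.DA.Sq
import Pool.Agent.KS6_64.DA.Step2
import Pool.Agent.KS6_64.DA.PairE

/-!
# Two large primes of ratio near `p'`
-/

set_option autoImplicit false

namespace Pool.Agent.KS6_64.DA

open Filter Topology Pool.Agent.KS6_64.CY Pool.Agent.KS6_64.CZ

theorem HH_gg {m q r : ℕ} (hm : 2 < m) (pq : q.Prime) (pr : r.Prime) (hqm : m < q) (hqr : q < r) :
    HH (gg m) q r = gg (m * q * r) := by
  have d1 : ¬ q ∣ m := fun hd => by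
    have := Nat.le_of_dvd (by omega) hd; omega
  have d2 : ¬ r ∣ m * q := fun hd => by
    rcases (Nat.Prime.dvd_mul pr).1 hd with hd | hd
    · have := Nat.le_of_dvd (by omega) hd; omega
    · have := Nat.le_of_dvd (by omega) hd; omega
  have hmq : 2 < m * q := lt_of_lt_of_le hm (Nat.le_mul_of_pos_right m pq.pos)
  funext x
  rw [gg_mul hmq pr d2, gg_mul hm pq d1, gg_mul hm pq d1, ← pow_mul, mul_comm r q]
  unfold HH A0 B0
  ring

theorem HH_neg {g : ℝ → ℝ} {q r : ℕ} (oq : Odd q) (or : Odd r) :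
    HH (fun x => g (-x)) q r = fun x => HH g q r (-x) := by
  funext x
  unfold HH A0 B0
  simp only
  rw [oq.neg_pow, or.neg_pow, (oq.mul or).neg_pow]

theorem upE {l : ℕ} (hl : l.Prime) (h3 : 2 < l) : ∃ t : ℝ, 0 < t ∧ t ≤ 1 ∧
    ∀ᶠ q : ℕ in atTop, ∀ r : ℕ, q.Prime → r.Prime → l * q ≤ r → (r : ℝ) ≤ (1 + t) * (l * q) →
      UP (gg (l * q * r)) (gg' (l * q * r)) 5 := by
  have ol : Odd l := hl.odd_of_ne_two (by omega)
  obtain ⟨t, t0, t1, ht⟩ := exists_datE (up_prime hl h3) ol (up_GE hl h3)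
  refine ⟨t, t0, t1, ?_⟩
  filter_upwards [ht, eventually_gt_atTop l, eventually_gt_atTop 2] with q hq hql hq2 r pq pr hqr hr
  have hqr' : q < r := by
    have : 2 * q ≤ l * q := Nat.mul_le_mul_right q (by omega)
    have := pq.pos
    omega
  obtain ⟨k⟩ := hq r hqr hr (pq.odd_of_ne_two (by omega)) (pr.odd_of_ne_two (by omega))
  have h1 := up_twoE (up_prime hl h3) (up_GE hl h3) k
  have hlq : 2 < l * q := lt_of_lt_of_le h3 (Nat.le_mul_of_pos_right l pq.pos)
  have hlqr : 2 < l * q * r := lt_of_lt_of_le hlq (Nat.le_mul_of_pos_right _ pr.pos)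
  have e : (fun x => B0 (gg l) q r x - A0 (gg l) q r x + gg l x) = gg (l * q * r) :=
    HH_gg h3 pq pr hql hqr'
  rw [e] at h1
  have e' : (fun x => B1 (gg' l) q r x - A1 (gg' l) q r x + gg' l x) = gg' (l * q * r) := by
    funext x; exact (h1.der x).unique (gg_der hlqr x)
  rwa [e'] at h1

/-- two large primes `q`, `r` with `r / q` slightly larger than `p'` -/
theorem exists_qr {p p' : ℕ} (hp : p.Prime) (hp' : p'.Prime) (h3 : 2 < p) (he : 4 * p < p') (R : ℕ) :
    ∃ q r : ℕ, q.Prime ∧ r.Prime ∧ R < q ∧ p' < q ∧ q < r ∧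
      UP (gg (p' * q * r)) (gg' (p' * q * r)) 5 ∧ POS (gg (p * q * r)) 2 ∧
      POS (fun x => gg (p * q * r) (-x)) 5 := by
  have h3' : 2 < p' := by omega
  have oe : Odd p' := hp'.odd_of_ne_two (by omega)
  obtain ⟨t1, t10, t11, ht1⟩ := upE hp' h3'
  obtain ⟨t2, t20, t21, ht2⟩ := posL hp h3 oe
  obtain ⟨t3, t30, t31, ht3⟩ := negL hp h3 oe he
  set t : ℝ := min t1 (min t2 t3) with ht
  have t0 : 0 < t := by positivity
  have tt : t ≤ 1 := (min_le_left _ _).trans t11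
  have hall := ht1.and ((ht2 t ((min_le_right _ _).trans (min_le_left _ _))).and
    ((ht3 t ((min_le_right _ _).trans (min_le_right _ _))).and
      ((exists_prime_E t0 tt hp'.pos).and (eventually_gt_atTop (max R p')))))
  obtain ⟨Q, hQ⟩ := eventually_atTop.1 hall
  obtain ⟨q, hqQ, pq⟩ := Nat.exists_infinite_primes Q
  obtain ⟨e1, e2, e3, ⟨r, pr, hr1, hr2⟩, hqR⟩ := hQ q hqQ
  have hq1 : R < q := lt_of_le_of_lt (le_max_left _ _) hqR
  have hq2 : p' < q := lt_of_le_of_lt (le_max_right _ _) hqR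
  have hqr : q < r := by
    have : 2 * q ≤ p' * q := Nat.mul_le_mul_right q (by omega)
    have := pq.pos
    omega
  have oq : Odd q := pq.odd_of_ne_two (by omega)
  have or : Odd r := pr.odd_of_ne_two (by omega)
  have hpq : p < q := by omega
  have f2 := e2 r hr1.le hr2 oq or
  have f3 := e3 r hr1.le hr2 oq or
  rw [HH_gg h3 pq pr hpq hqr] at f2
  rw [HH_neg oq or, HH_gg h3 pq pr hpq hqr] at f3
  refine ⟨q, r, pq, pr, hq1, hq2, hqr, e1 r pq pr hr1.le (hr2.trans ?_), f2, f3⟩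
  have : t ≤ t1 := min_le_left _ _
  have h5 : (0 : ℝ) ≤ p' * q := by positivity
  exact mul_le_mul_of_nonneg_right (by linarith) h5

end Pool.Agent.KS6_64.DA
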